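import Mathlib

set_option autoImplicit false

/-!
# Project LQ (helper319), MP_0a041d_co: the linear arboricity conjecture for regular graphs of odd
degree with sparse short cycles, and for almost all lifts of regular multigraphs.

Definitions (copies of those in `Pool.Agent.H931R3.LACore` and `Pool.Agent.W111.LAR.Crit` are used
in the leaves; here only what is new) and the two statements of the leaves.
-/

namespace Pool.Agent.N319.LQ

open SimpleGraph

/-- No set of at most `m` vertices spans more edges than it has vertices. -/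
def Sparse {V : Type} (G : SimpleGraph V) (m : ℕ) : Prop :=
  ∀ (S : Finset V) (E : Finset (Sym2 V)), S.card ≤ m →
    (∀ e ∈ E, e ∈ G.edgeSet ∧ ∀ x ∈ e, x ∈ S) → E.card ≤ S.card

/-- Leaf SEP: spanning subgraphs of sparse regular graphs of odd degree whose components are edges
and paths with three vertices, the centres of the latter being pairwise distant and on no
triangle. -/
def SepStm : Prop :=
  ∀ (V : Type) [Finite V] (G : SimpleGraph V) (r R m : ℕ), 3 ≤ r → 1 ≤ R → Odd r →
    (∀ v, (G.neighborSet v).ncard = r) → Sparse G m → r ^ (R + 3) ≤ m →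
    ∃ (P : SimpleGraph V) (Y : Set V), P ≤ G ∧ (∀ v, 1 ≤ (P.neighborSet v).ncard) ∧
      (∀ v, v ∉ Y → (P.neighborSet v).ncard ≤ 1) ∧ (∀ v, (P.neighborSet v).ncard ≤ 2) ∧
      (∀ y ∈ Y, ∀ a b, G.Adj y a → G.Adj y b → ¬ G.Adj a b) ∧
      ∀ a ∈ Y, ∀ b ∈ Y, a ≠ b → ∀ p : G.Walk a b, 2 * R + 1 ≤ p.length

end Pool.Agent.N319.LQ
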