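import Pool.Agent.W111.LAR.OddTop
import Pool.Agent.N319.LQ.Stm

set_option autoImplicit false

/-!
# Project LQ (helper319), MP_0a041d_co: adding a matching to an acyclic graph
-/

namespace Pool.Agent.N319.LQ

open SimpleGraph

/-- Adding to an acyclic graph a matching that has at most one end in each component. -/
theorem acyc_add {V : Type} {P M : SimpleGraph V} (hP : P.IsAcyclic)
    (huniq : ∀ u v v', M.Adj u v → M.Adj u v' → v = v')
    (hsep : ∀ u v u' v', M.Adj u u' → M.Adj v v' → P.Reachable u v → u = v) :
    (P ⊔ M).IsAcyclic := by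
  intro w c hc
  by_cases h : ∃ e ∈ c.edges, e ∈ M.edgeSet
  · obtain ⟨e, he, heM⟩ := h
    induction e using Sym2.ind with
    | _ a b =>
    have hab : M.Adj a b := heM
    have h1 : ((P ⊔ M) \ fromEdgeSet {s(a, b)}).Reachable a b :=
      (adj_and_reachable_delete_edges_iff_exists_cycle.2 ⟨w, c, hc, he⟩).2
    have key : ∀ {x y : V} (_ : ((P ⊔ M) \ fromEdgeSet {s(a, b)}).Walk x y), P.Reachable a x →
        P.Reachable a y := by
      intro x y q
      induction q with
      | nil => exact id
      | @cons x z y h q ih =>
        intro hx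
        apply ih
        rw [sdiff_adj, sup_adj, fromEdgeSet_adj] at h
        rcases h.1 with h2 | h2
        · exact hx.trans h2.reachable
        · exfalso
          have h3 := hsep a x b z hab h2 hx
          subst h3
          have h4 := huniq a b z hab h2
          subst h4
          exact h.2 ⟨rfl, hab.ne⟩
    obtain ⟨q⟩ := h1
    exact hab.ne (hsep a b b a hab hab.symm (key q (Reachable.refl a)))
  · push Not at h
    have h2 : ∀ e ∈ c.edges, e ∈ P.edgeSet := by
      intro e he
      have h3 := c.edges_subset_edgeSet he
      have h4 := h e he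
      induction e using Sym2.ind with
      | _ a b =>
      rcases h3 with h3 | h3
      · exact h3
      · exact absurd h3 h4
    exact hP (c.transfer P h2) (hc.transfer h2)

theorem P_acyc {V : Type} [Finite V] {P : SimpleGraph V} {Y : Set V}
    (hP1 : ∀ v, v ∉ Y → (P.neighborSet v).ncard ≤ 1) (hYY : ∀ a ∈ Y, ∀ b ∈ Y, ¬ P.Adj a b) :
    P.IsAcyclic := by
  intro v c hc
  have hY : ∀ w ∈ c.support, w ∈ Y := by
    intro w hw
    by_contra hwY
    have h1 := hc.ncard_neighborSet_toSubgraph_eq_two hw
    have h2 : c.toSubgraph.neighborSet w ⊆ P.neighborSet w := fun u hu =>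
      (hu : c.toSubgraph.Adj w u).adj_sub
    have h3 := Set.ncard_le_ncard h2 (Set.toFinite _)
    have h4 := hP1 w hwY
    omega
  exact hYY v (hY v (Walk.start_mem_support c)) (c.getVert 1)
    (hY _ (Walk.getVert_mem_support c 1)) (by
      have := c.adj_getVert_succ (i := 0) (by have := hc.three_le_length; omega)
      rwa [Walk.getVert_zero] at this)

end Pool.Agent.N319.LQ
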