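import Pool.Agent.W111.LAR.Odd2

set_option autoImplicit false

/-!
# Project LQ (helper319), MP_0a041d_co: statement of the leaf COV
-/

namespace Pool.Agent.N319.LQ

open SimpleGraph H931R3.LA Pool.Agent.W111.LAR

/-- Leaf COV: `Pool.Agent.W111.LAR.cov_spanning` with an additional linear forest `Q` whose vertices
lie in the forbidden set `Y` and are isolated in `P`. -/
def CovStm : Prop :=
  ∀ (V κ : Type) [Finite V] [Fintype κ] (H : κ → SimpleGraph V) (P Q : SimpleGraph V) (Y : Set V),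
    (∀ i v, ((H i).neighborSet v).ncard ≤ 2) →
    (∀ v, v ∉ Y → (P.neighborSet v).ncard ≤ 1) → (∀ v, (P.neighborSet v).ncard ≤ 2) →
    (∀ a ∈ Y, ∀ b ∈ Y, ¬ P.Adj a b) →
    (∀ y a b, P.Adj y a → P.Adj y b → ∀ i, ¬ (H i).Adj a b) →
    IsLF Q → (∀ a b, Q.Adj a b → a ∈ Y ∧ ∀ c, ¬ P.Adj a c) →
    ∀ L : ℕ, 12 * Fintype.card κ ≤ L + 8 →
    (∀ i v, Cyc (H i) v →
      L + 2 * (Y ∩ {w | (H i).Reachable v w}).ncard ≤ csize (H i) v) →
    Cov ((P ⊔ Q) ⊔ ⨆ i, H i) (Fintype.card κ + 1)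

end Pool.Agent.N319.LQ
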