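import Pool.Agent.N319.LQ.Prep
import Pool.Agent.N319.LQ.StmCov

set_option autoImplicit false

/-!
# Project LQ (helper319), MP_0a041d_co: the main construction
-/

namespace Pool.Agent.N319.LQ

open SimpleGraph H931R3.LA Pool.Agent.W111.LAR

/-- The main construction: short cycles lose an edge to the matching class, long cycles are broken
by an independent transversal. -/
theorem core (hCov : CovStm) {V : Type} [Finite V] (G : SimpleGraph V) (k L m : ℕ)
    (hL : 12 * k ≤ L + 8) (hsp : Sparse G m) (hm : 4 * L + 196 ≤ m) (P : SimpleGraph V)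
    (Y : Set V) (hPG : P ≤ G) (hP1 : ∀ v, v ∉ Y → (P.neighborSet v).ncard ≤ 1)
    (hP2 : ∀ v, (P.neighborSet v).ncard ≤ 2)
    (hPd : ∀ v, ((G \ P).neighborSet v).ncard ≤ 2 * k)
    (htri : ∀ y ∈ Y, ∀ a b, G.Adj y a → G.Adj y b → ¬ G.Adj a b)
    (hsep : ∀ a ∈ Y, ∀ b ∈ Y, a ≠ b → ∀ p : G.Walk a b, 9 ≤ p.length) : Cov G (k + 1) := by
  classical
  have := Fintype.ofFinite V
  obtain ⟨H, hH, hsup, hdis⟩ := decomp_disj (G \ P) k hPd
  have hHGP : ∀ i, H i ≤ G \ P := fun i => (le_iSup H i).trans hsup.le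
  have hHG : ∀ i, H i ≤ G := fun i => (hHGP i).trans sdiff_le
  have hHP : ∀ i u v, (H i).Adj u v → ¬ P.Adj u v := fun i u v h => (hHGP i h).2
  have hYY : ∀ a ∈ Y, ∀ b ∈ Y, ¬ P.Adj a b := by
    intro a ha b hb hab
    have h4 := hsep a ha b hb hab.ne (hPG hab).toWalk
    simp [SimpleGraph.Adj.toWalk] at h4
  have hcenter : ∀ y a b, P.Adj y a → P.Adj y b → a ≠ b → y ∈ Y := by
    intro y a b ha hb hab
    by_contra hy
    exact hab ((Set.ncard_le_one (Set.toFinite _)).1 (hP1 y hy) a ha b hb)
  have hnotri : ∀ y a b, P.Adj y a → P.Adj y b → ¬ G.Adj a b := by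
    intro y a b ha hb hab
    exact htri y (hcenter y a b ha hb hab.ne) a b (hPG ha) (hPG hb) hab
  -- the short classes
  let T : Type := {c : II H // csize (H c.1.1) c.1.2 ≤ 2 * L + 64}
  have hTfin : Fintype T := Fintype.ofFinite T
  have hgood : ∀ t : T, ∃ a b, (H t.1.1.1).Reachable t.1.1.2 a ∧ (H t.1.1.1).Adj a b ∧
      a ∉ Y ∧ b ∉ Y := fun t => good_edge (hHG _)
        (fun a ha b hb hab p => by have := hsep a ha b hb hab p; omega) t.1.2.1
  choose a b hra hab haY hbY using hgood
  have hrb : ∀ t : T, (H t.1.1.1).Reachable t.1.1.2 (b t) := fun t =>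
    (hra t).trans (hab t).reachable
  have hfar : ∀ t t' : T, t ≠ t' → ∀ x y, (H t.1.1.1).Reachable t.1.1.2 x →
      (H t'.1.1.1).Reachable t'.1.1.2 y → ∀ p : G.Walk x y, 68 < p.length := by
    intro t t' hne x y hx hy p
    by_contra hlt
    push Not at hlt
    exact two_cycles hHG hdis hsp (n := 2 * L + 64) (D := 68) (by omega) t.1 t'.1
      (fun h => hne (Subtype.ext h)) t.2 t'.2 hx hy p hlt
  -- the matching of the chosen edges
  let M : SimpleGraph V := SimpleGraph.fromRel (fun u v => ∃ t : T, a t = u ∧ b t = v)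
  have hM : ∀ u v, M.Adj u v → ∃ t : T, (a t = u ∧ b t = v) ∨ (a t = v ∧ b t = u) := by
    intro u v h
    rw [SimpleGraph.fromRel_adj] at h
    rcases h.2 with ⟨t, h1, h2⟩ | ⟨t, h1, h2⟩
    · exact ⟨t, Or.inl ⟨h1, h2⟩⟩
    · exact ⟨t, Or.inr ⟨h1, h2⟩⟩
  have hMab : ∀ t, M.Adj (a t) (b t) := fun t => by
    rw [SimpleGraph.fromRel_adj]
    exact ⟨(hab t).ne, Or.inl ⟨t, rfl, rfl⟩⟩
  have hMH : ∀ u v, M.Adj u v → ∃ t : T, (H t.1.1.1).Reachable t.1.1.2 u ∧
      (H t.1.1.1).Adj u v := by
    intro u v h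
    obtain ⟨t, ⟨rfl, rfl⟩ | ⟨rfl, rfl⟩⟩ := hM u v h
    · exact ⟨t, hra t, hab t⟩
    · exact ⟨t, hrb t, (hab t).symm⟩
  have hMG : M ≤ G := fun u v h => by
    obtain ⟨t, _, h1⟩ := hMH u v h
    exact hHG _ h1
  have hMY : ∀ u v, M.Adj u v → u ∉ Y := by
    intro u v h
    obtain ⟨t, ⟨rfl, rfl⟩ | ⟨rfl, rfl⟩⟩ := hM u v h
    · exact haY t
    · exact hbY t
  have hMuniq : ∀ u v v', M.Adj u v → M.Adj u v' → v = v' := by
    intro u v v' h h'
    obtain ⟨t, ht⟩ := hM u v h
    obtain ⟨t', ht'⟩ := hM u v' h'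
    have htt : t = t' := by
      by_contra hne
      have h1 : (H t.1.1.1).Reachable t.1.1.2 u := by
        rcases ht with ⟨rfl, _⟩ | ⟨_, rfl⟩
        · exact hra t
        · exact hrb t
      have h2 : (H t'.1.1.1).Reachable t'.1.1.2 u := by
        rcases ht' with ⟨rfl, _⟩ | ⟨_, rfl⟩
        · exact hra t'
        · exact hrb t'
      have := hfar t t' hne u u h1 h2 Walk.nil
      simp at this
    subst htt
    rcases ht with ⟨h1, h2⟩ | ⟨h1, h2⟩ <;> rcases ht' with ⟨h3, h4⟩ | ⟨h3, h4⟩
    · rw [← h2, ← h4]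
    · exact absurd (h1.trans h4.symm) (hab t).ne
    · exact absurd (h3.trans h2.symm) (hab t).ne
    · rw [← h1, ← h3]
  have hMsep : ∀ u v u' v', M.Adj u u' → M.Adj v v' → P.Reachable u v → u = v := by
    intro u v u' v' h h' huv
    obtain ⟨t, ht⟩ := hM u u' h
    obtain ⟨t', ht'⟩ := hM v v' h'
    have h1 : (H t.1.1.1).Reachable t.1.1.2 u := by
      rcases ht with ⟨rfl, _⟩ | ⟨_, rfl⟩
      · exact hra t
      · exact hrb t
    have h2 : (H t'.1.1.1).Reachable t'.1.1.2 v := by
      rcases ht' with ⟨rfl, _⟩ | ⟨_, rfl⟩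
      · exact hra t'
      · exact hrb t'
    by_cases htt : t = t'
    · subst htt
      by_contra hne
      have hadj : (H t.1.1.1).Adj u v := by
        rcases ht with ⟨h1, h2⟩ | ⟨h1, h2⟩ <;> rcases ht' with ⟨h3, h4⟩ | ⟨h3, h4⟩
        · exact absurd (h1.symm.trans h3) hne
        · rw [← h1, ← h4]; exact hab t
        · rw [← h2, ← h3]; exact (hab t).symm
        · exact absurd (h2.symm.trans h4) hne
      rcases P_reach hP1 hYY huv with h3 | h3 | ⟨y, h3, h4⟩
      · exact hne h3
      · exact hHP _ _ _ hadj h3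
      · exact hnotri y u v h3 h4 (hHG _ hadj)
    · exfalso
      obtain ⟨p, hp⟩ := P_walk hPG hP1 hYY huv
      have := hfar t t' htt u v h1 h2 p
      omega
  -- the special components
  let Wt : T → Set V := fun t => {x | P.Reachable (a t) x} ∪ {x | P.Reachable (b t) x}
  let W : Set V := {x | ∃ u u', M.Adj u u' ∧ P.Reachable u x}
  have hWt : ∀ x ∈ W, ∃ t, x ∈ Wt t := by
    rintro x ⟨u, u', h, hux⟩
    obtain ⟨t, ⟨rfl, _⟩ | ⟨_, rfl⟩⟩ := hM u u' h
    · exact ⟨t, Or.inl hux⟩
    · exact ⟨t, Or.inr hux⟩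
  have hWtcard : ∀ t, (Wt t).ncard ≤ 8 := by
    intro t
    have h1 := Set.ncard_union_le {x | P.Reachable (a t) x} {x | P.Reachable (b t) x}
    have h2 := P_card hP1 hP2 hYY (haY t)
    have h3 := P_card hP1 hP2 hYY (hbY t)
    exact h1.trans (by omega)
  have hWP : ∀ u v, P.Adj u v → u ∈ W → v ∈ W := by
    rintro u v huv ⟨x, x', hx, hxu⟩
    exact ⟨x, x', hx, hxu.trans huv.reachable⟩
  have hWtwalk : ∀ t, ∀ x ∈ Wt t, ∃ u, (H t.1.1.1).Reachable t.1.1.2 u ∧
      ∃ p : G.Walk u x, p.length ≤ 2 := by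
    intro t x hx
    rcases hx with hx | hx
    · exact ⟨a t, hra t, P_walk hPG hP1 hYY hx⟩
    · exact ⟨b t, hrb t, P_walk hPG hP1 hYY hx⟩
  have hWfar : ∀ t t' : T, t ≠ t' → ∀ x ∈ Wt t, ∀ y ∈ Wt t', ∀ p : G.Walk x y,
      64 < p.length := by
    intro t t' hne x hx y hy p
    obtain ⟨u, hu, q, hq⟩ := hWtwalk t x hx
    obtain ⟨u', hu', q', hq'⟩ := hWtwalk t' y hy
    have := hfar t t' hne u u' hu hu' ((q.append p).append q'.reverse)
    rw [Walk.length_append, Walk.length_append, Walk.length_reverse] at this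
    omega
  let PW : SimpleGraph V :=
    { Adj := fun u v => P.Adj u v ∧ u ∈ W
      symm.symm := fun u v h => ⟨h.1.symm, hWP u v h.1 h.2⟩
      loopless.irrefl := fun u h => P.loopless.irrefl u h.1 }
  let PN : SimpleGraph V :=
    { Adj := fun u v => P.Adj u v ∧ u ∉ W
      symm.symm := fun u v h => ⟨h.1.symm, fun hv => h.2 (hWP v u h.1.symm hv)⟩
      loopless.irrefl := fun u h => P.loopless.irrefl u h.1 }
  have hPW : PW ≤ P := fun u v h => h.1
  have hPN : PN ≤ P := fun u v h => h.1
  let Q : SimpleGraph V := PW ⊔ M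
  have hQLF : IsLF Q := by
    constructor
    · refine acyc_add ?_ hMuniq fun u v u' v' h h' huv => hMsep u v u' v' h h' (huv.mono hPW)
      exact (P_acyc hP1 hYY).anti hPW
    · intro v
      have h1 : Q.neighborSet v ⊆ P.neighborSet v ∪ M.neighborSet v := by
        rintro u (hu | hu)
        · exact Or.inl (hPW hu)
        · exact Or.inr hu
      have h2 := Set.ncard_le_ncard h1 (Set.toFinite _)
      have h3 := Set.ncard_union_le (P.neighborSet v) (M.neighborSet v)
      by_cases hv : ∃ u, M.Adj v u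
      · obtain ⟨u, hu⟩ := hv
        have h4 := hP1 v (hMY v u hu)
        have h5 : (M.neighborSet v).ncard ≤ 1 :=
          (Set.ncard_le_one (Set.toFinite _)).2 fun x hx y hy => hMuniq v x y hx hy
        omega
      · push Not at hv
        have h4 : M.neighborSet v = ∅ := by
          ext u
          constructor
          · intro hu
            exact absurd hu (hv u)
          · intro hu
            exact absurd hu (Set.notMem_empty u)
        have h5 : (M.neighborSet v).ncard = 0 := by rw [h4, Set.ncard_empty]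
        have h6 := hP2 v
        omega
  have hH' : ∀ i, H i \ M ≤ H i := fun i => sdiff_le
  have hmain := hCov V (Fin k) (fun i => H i \ M) PN Q (Y ∪ W)
    (fun i v => (Set.ncard_le_ncard (fun u hu => hH' i hu) (Set.toFinite _)).trans (hH i v))
    (fun v hv => (Set.ncard_le_ncard (fun u hu => hPN hu) (Set.toFinite _)).trans
      (hP1 v fun h => hv (Or.inl h)))
    (fun v => (Set.ncard_le_ncard (fun u hu => hPN hu) (Set.toFinite _)).trans (hP2 v))
    (by
      intro u hu v hv huv
      rcases hu with hu | hu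
      · rcases hv with hv | hv
        · exact hYY u hu v hv huv.1
        · exact huv.symm.2 hv
      · exact huv.2 hu)
    (fun y u v hu hv i huv => hnotri y u v hu.1 hv.1 (hHG i huv.1))
    hQLF
    (by
      intro u v huv
      have hu : u ∈ W := by
        rcases huv with h | h
        · exact h.2
        · exact ⟨u, v, h, Reachable.refl u⟩
      exact ⟨Or.inr hu, fun c hc => hc.2 hu⟩)
    L (by rw [Fintype.card_fin]; omega)
    (by
      intro i v hv
      obtain ⟨h1, h2, h3⟩ := cyc_sub (hH' i) (hH i) hv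
      have hset : {w | (H i \ M).Reachable v w} = {w | (H i).Reachable v w} := by
        ext w
        exact (h1 w).symm
      have hcs : csize (H i \ M) v = csize (H i) v := by
        unfold csize
        rw [hset]
      rw [hcs, hset]
      have hlong : 2 * L + 64 < csize (H i) v := by
        by_contra hlt
        push Not at hlt
        let c : II H := ⟨(i, rep (H i) v), h3.trans (rep_reach _ _).symm, rep_eq (rep_reach _ _)⟩
        have hcsz : csize (H c.1.1) c.1.2 = csize (H i) v := csize_eq (rep_reach _ _)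
        let t : T := ⟨c, by rw [hcsz]; exact hlt⟩
        have h4 : (H i).Reachable v (a t) := (rep_reach (H i) v).symm.trans (hra t)
        have h5 : (H i).Adj (a t) (b t) := hab t
        have h6 : b t ∈ (H i \ M).neighborSet (a t) := by
          rw [h2 (a t) h4]
          exact h5
        exact h6.2 (hMab t)
      set C : Set V := {w | (H i).Reachable v w} with hC
      have hYC := card_far (hH i) v h3 Y 9 (by omega) (fun x hx y hy hxy p => by
        have := hsep x hx y hy hxy (p.mapLe (hHG i))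
        rwa [Walk.length_mapLe] at this)
      rw [← hC] at hYC
      -- the special components that meet the cycle
      let TC : Finset T := Finset.univ.filter (fun t => (Wt t ∩ C).Nonempty)
      have hx0 : ∀ t : T, ∃ x, t ∈ TC → x ∈ Wt t ∩ C := by
        intro t
        by_cases h : (Wt t ∩ C).Nonempty
        · exact ⟨h.choose, fun _ => h.choose_spec⟩
        · exact ⟨v, fun ht => absurd (Finset.mem_filter.1 ht).2 h⟩
      choose xt hxt using hx0
      let X : Finset V := TC.image xt
      have hXcard : X.card = TC.card := by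
        refine Finset.card_image_of_injOn ?_
        intro t ht t' ht' h
        by_contra hne
        have h4 := hxt t (Finset.mem_coe.1 ht)
        have h5 := hxt t' (Finset.mem_coe.1 ht')
        have := hWfar t t' hne (xt t) h4.1 (xt t) (by rw [h]; exact h5.1) Walk.nil
        simp at this
      have hXC : ((X : Set V) ∩ C).ncard = X.card := by
        rw [Set.inter_eq_left.2, Set.ncard_coe_finset]
        intro x hx
        obtain ⟨t, ht, rfl⟩ := Finset.mem_image.1 (Finset.mem_coe.1 hx)
        exact (hxt t ht).2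
      have hXfar := card_far (hH i) v h3 (X : Set V) 64 (by omega) (by
        intro x hx y hy hxy p
        obtain ⟨t, ht, rfl⟩ := Finset.mem_image.1 (Finset.mem_coe.1 hx)
        obtain ⟨t', ht', rfl⟩ := Finset.mem_image.1 (Finset.mem_coe.1 hy)
        have htt : t ≠ t' := fun h => hxy (by rw [h])
        have := hWfar t t' htt (xt t) (hxt t ht).1 (xt t') (hxt t' ht').1 (p.mapLe (hHG i))
        rw [Walk.length_mapLe] at this
        omega)
      rw [← hC, hXC, hXcard] at hXfar
      have hWC : (W ∩ C).ncard ≤ TC.card * 8 := by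
        have h4 : W ∩ C ⊆ ((TC.biUnion fun t => (Wt t).toFinset : Finset V) : Set V) := by
          rintro x ⟨hxW, hxC⟩
          obtain ⟨t, ht⟩ := hWt x hxW
          rw [Finset.mem_coe, Finset.mem_biUnion]
          exact ⟨t, Finset.mem_filter.2 ⟨Finset.mem_univ _, x, ht, hxC⟩, Set.mem_toFinset.2 ht⟩
        have h5 := Set.ncard_le_ncard h4 (Finset.finite_toSet _)
        rw [Set.ncard_coe_finset] at h5
        refine h5.trans (Finset.card_biUnion_le_card_mul _ _ _ fun t _ => ?_)
        rw [← Set.ncard_eq_toFinset_card']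
        exact hWtcard t
      have hZC : ((Y ∪ W) ∩ C).ncard ≤ (Y ∩ C).ncard + (W ∩ C).ncard := by
        rw [Set.union_inter_distrib_right]
        exact Set.ncard_union_le _ _
      omega)
  rw [Fintype.card_fin] at hmain
  have hG : (PN ⊔ Q) ⊔ ⨆ i, (H i \ M) = G := by
    ext u v
    constructor
    · rintro ((h | (h | h)) | h)
      · exact hPG h.1
      · exact hPG h.1
      · exact hMG h
      · rw [iSup_adj] at h
        obtain ⟨i, hi⟩ := h
        exact hHG i hi.1
    · intro h
      by_cases hP : P.Adj u v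
      · by_cases hu : u ∈ W
        · exact Or.inl (Or.inr (Or.inl ⟨hP, hu⟩))
        · exact Or.inl (Or.inl ⟨hP, hu⟩)
      · by_cases hMuv : M.Adj u v
        · exact Or.inl (Or.inr (Or.inr hMuv))
        · right
          have h4 : (⨆ i, H i).Adj u v := by
            rw [hsup]
            exact ⟨h, hP⟩
          rw [iSup_adj] at h4 ⊢
          obtain ⟨i, hi⟩ := h4
          exact ⟨i, hi, hMuv⟩
  rwa [hG] at hmain

end Pool.Agent.N319.LQ
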