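import Pool.Agent.N319.LQ.StmCov

set_option autoImplicit false

/-!
# Project LQ (helper319), MP_0a041d_co: the leaf COV

The proof of `Pool.Agent.W111.LAR.cov_spanning` with an additional linear forest `Q` whose vertices
lie in the forbidden set `Y` and are isolated in `P`.
-/

namespace Pool.Agent.N319.LQ

open Finset SimpleGraph H931R3.LA Pool.Agent.W111.LAR

/-- A walk of `G` which starts at a vertex of `A`, where `A` is a union of components of `G`, stays
in `A`. -/
theorem edges_side {V : Type} {G A : SimpleGraph V}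
    (hd : ∀ a b c, A.Adj a b → G.Adj a c → A.Adj a c) {u w : V} (p : G.Walk u w)
    (hu : ∃ z, A.Adj u z) : ∀ e ∈ p.edges, e ∈ A.edgeSet := by
  induction p with
  | nil => simp
  | @cons u v w h p ih =>
    obtain ⟨z, hz⟩ := hu
    have h1 : A.Adj u v := hd u z v hz h
    intro e he
    rw [Walk.edges_cons, List.mem_cons] at he
    rcases he with rfl | he
    · exact h1
    · exact ih ⟨u, h1.symm⟩ e he

/-- The union of two linear forests on disjoint vertex sets is a linear forest. -/
theorem isLF_sup_disj {V : Type} {A B : SimpleGraph V} (hA : IsLF A) (hB : IsLF B)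
    (hd : ∀ a b c, A.Adj a b → ¬ B.Adj a c) : IsLF (A ⊔ B) := by
  have hdA : ∀ a b c, A.Adj a b → (A ⊔ B).Adj a c → A.Adj a c := by
    rintro a b c h1 (h2 | h2)
    · exact h2
    · exact absurd h2 (hd a b c h1)
  have hdB : ∀ a b c, B.Adj a b → (A ⊔ B).Adj a c → B.Adj a c := by
    rintro a b c h1 (h2 | h2)
    · exact absurd h1 (hd a c b h2)
    · exact h2
  constructor
  · intro v c hc
    have hne : ¬ c.Nil := hc.not_nil
    rcases c.adj_snd hne with h1 | h1
    · exact hA.1 _ (hc.transfer (edges_side hdA c ⟨_, h1⟩))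
    · exact hB.1 _ (hc.transfer (edges_side hdB c ⟨_, h1⟩))
  · intro v
    by_cases h : ∃ z, A.Adj v z
    · obtain ⟨z, hz⟩ := h
      have : (A ⊔ B).neighborSet v = A.neighborSet v := by
        ext u
        exact ⟨fun hu => hdA v z u hz hu, fun hu => Or.inl hu⟩
      rw [this]
      exact hA.2 v
    · have : (A ⊔ B).neighborSet v = B.neighborSet v := by
        ext u
        refine ⟨fun hu => ?_, fun hu => Or.inr hu⟩
        rcases hu with hu | hu
        · exact absurd ⟨u, hu⟩ h
        · exact hu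
      rw [this]
      exact hB.2 v

theorem covQ : CovStm := by
  intro V κ _ _ H P Q Y hdeg hP1 hP2 hYY htri hQLF hQP L hL hsz
  classical
  have := Fintype.ofFinite V
  obtain ⟨key, hk1, hk2⟩ := exists_key2 P Y hP1 hYY
  obtain ⟨s, hs, hind⟩ := choice H (partner P Y) (partner_deg hP1 hP2) key Y L hL hsz
  -- selected edges at a vertex
  have hselinc : ∀ v u, (selGraph aa bb s).Adj v u → ∃ c, s(aa (s c), bb (s c)) = s(v, u) := by
    rintro v u ⟨_, c, hc⟩
    refine ⟨c, ?_⟩
    rcases hc with ⟨h1, h2⟩ | ⟨h1, h2⟩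
    · rw [h1, h2]
    · rw [h1, h2, Sym2.eq_swap]
  have hselincv : ∀ v u c, s(aa (s c), bb (s c)) = s(v, u) → (aa (s c) = v ∨ bb (s c) = v) := by
    intro v u c h
    rcases Sym2.eq_iff.1 h with ⟨h1, _⟩ | ⟨_, h1⟩
    · exact Or.inl h1
    · exact Or.inr h1
  have hselY : ∀ v u, (selGraph aa bb s).Adj v u → v ∉ Y := by
    intro v u h
    obtain ⟨c, hc⟩ := hselinc v u h
    rcases hselincv v u c hc with h1 | h1
    · rw [← h1]; exact (hs c).2.1
    · rw [← h1]; exact (hs c).2.2
  have hselH : ∀ v u, (selGraph aa bb s).Adj v u → ∃ i, (H i).Adj v u := by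
    rintro v u ⟨_, c, hc⟩
    refine ⟨(s c).1.1, ?_⟩
    rcases hc with ⟨h1, h2⟩ | ⟨h1, h2⟩
    · rw [← h1, ← h2]; exact adj_ends _
    · rw [← h1, ← h2]; exact (adj_ends _).symm
  have hseluniq : ∀ v u u', (selGraph aa bb s).Adj v u → (selGraph aa bb s).Adj v u' →
      u = u' := by
    intro v u u' h h'
    obtain ⟨c, hc⟩ := hselinc v u h
    obtain ⟨c', hc'⟩ := hselinc v u' h'
    have hcc : c = c' := by
      by_contra hne
      exact hind c c' hne ⟨by rw [(hs c).1, (hs c').1]; exact hne, Or.inl ⟨v, hselincv v u c hc,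
        hselincv v u' c' hc'⟩⟩
    subst hcc
    exact Sym2.congr_right.1 (hc.symm.trans hc')
  have hPuniq : ∀ v w w', v ∉ Y → P.Adj v w → P.Adj v w' → w = w' := fun v w w' hv h h' =>
    (Set.ncard_le_one (Set.toFinite _)).1 (hP1 v hv) w h w' h'
  have hup : ∀ v u, (selGraph aa bb s).Adj v u → key v < key u →
      ∃ c, s(aa (s c), bb (s c)) = s(v, u) ∧ upAt key (s c) v := by
    intro v u h hlt
    obtain ⟨c, hc⟩ := hselinc v u h
    refine ⟨c, hc, ?_⟩
    rcases Sym2.eq_iff.1 hc with ⟨h1, h2⟩ | ⟨h1, h2⟩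
    · exact Or.inl ⟨h1, by rw [h2]; exact hlt⟩
    · exact Or.inr ⟨h2, by rw [h1]; exact hlt⟩
  have hQ0 : IsLF (P ⊔ selGraph aa bb s) := by
    constructor
    · intro v0 c hc
      -- the two neighbours on the cycle
      have two : ∀ w ∈ c.support, ∃ x y, (P ⊔ selGraph aa bb s).Adj w x ∧
          (P ⊔ selGraph aa bb s).Adj w y ∧ x ≠ y ∧ x ∈ c.support ∧ y ∈ c.support := by
        intro w hw
        have h2 := hc.ncard_neighborSet_toSubgraph_eq_two hw
        obtain ⟨x, y, hxy, hset⟩ := Set.ncard_eq_two.1 h2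
        have hx : c.toSubgraph.Adj w x := by
          have : x ∈ c.toSubgraph.neighborSet w := by rw [hset]; simp
          exact this
        have hy : c.toSubgraph.Adj w y := by
          have : y ∈ c.toSubgraph.neighborSet w := by rw [hset]; simp
          exact this
        have hxs : x ∈ c.support := by
          have := hx.snd_mem
          rwa [Walk.mem_verts_toSubgraph] at this
        have hys : y ∈ c.support := by
          have := hy.snd_mem
          rwa [Walk.mem_verts_toSubgraph] at this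
        exact ⟨x, y, hx.adj_sub, hy.adj_sub, hxy, hxs, hys⟩
      have twoY : ∀ w ∈ c.support, w ∈ Y → ∃ x y, P.Adj w x ∧ P.Adj w y ∧ x ≠ y ∧
          x ∈ c.support ∧ y ∈ c.support := by
        intro w hw hwY
        obtain ⟨x, y, hx, hy, hxy, hxs, hys⟩ := two w hw
        refine ⟨x, y, ?_, ?_, hxy, hxs, hys⟩
        · rcases hx with h | h
          · exact h
          · exact absurd hwY (hselY w x h)
        · rcases hy with h | h
          · exact h
          · exact absurd hwY (hselY w y h)
      have twoN : ∀ w ∈ c.support, w ∉ Y → ∃ x y, P.Adj w x ∧ (selGraph aa bb s).Adj w y ∧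
          x ≠ y ∧ x ∈ c.support ∧ y ∈ c.support := by
        intro w hw hwY
        obtain ⟨x, y, hx, hy, hxy, hxs, hys⟩ := two w hw
        rcases hx with hx1 | hx1 <;> rcases hy with hy1 | hy1
        · exact absurd (hPuniq w x y hwY hx1 hy1) hxy
        · exact ⟨x, y, hx1, hy1, hxy, hxs, hys⟩
        · exact ⟨y, x, hy1, hx1, hxy.symm, hys, hxs⟩
        · exact absurd (hseluniq w x y hx1 hy1) hxy
      obtain ⟨w0, hw0, hmin0⟩ := exists_min_image c.support.toFinset key ⟨v0, by simp⟩
      have hw0' : w0 ∈ c.support := by simpa using hw0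
      obtain ⟨w, hw, hwY, hmin⟩ : ∃ w ∈ c.support, w ∉ Y ∧ ∀ u ∈ c.support, key w ≤ key u := by
        by_cases hY0 : w0 ∈ Y
        · obtain ⟨x, _, hx, _, _, hxs, _⟩ := twoY w0 hw0' hY0
          refine ⟨x, hxs, fun hxY => hYY w0 hY0 x hxY hx, fun u hu => ?_⟩
          rw [← hk1 w0 x hx]
          exact hmin0 u (by simpa using hu)
        · exact ⟨w0, hw0', hY0, fun u hu => hmin0 u (by simpa using hu)⟩
      -- the selected edge at a vertex with minimal key goes up
      have hgo : ∀ u ∈ c.support, u ∉ Y → key u = key w →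
          ∃ z, (selGraph aa bb s).Adj u z ∧ key u < key z := by
        intro u hu huY hku
        obtain ⟨x, y, hx, hy, hxy, _, hys⟩ := twoN u hu huY
        refine ⟨y, hy, lt_of_le_of_ne (hku ▸ hmin y hys) fun h => ?_⟩
        rcases hk2 u y h with h1 | h1 | ⟨z, h1, h2⟩
        · exact hy.ne h1
        · exact hxy (hPuniq u x y huY hx h1)
        · obtain ⟨i, hi⟩ := hselH u y hy
          exact htri z u y h1 h2 i hi
      obtain ⟨w', hw', hwY', hkw', hpart⟩ : ∃ w' ∈ c.support, w' ∉ Y ∧ key w' = key w ∧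
          (partner P Y).Adj w w' := by
        obtain ⟨x, _, hx, _, _, hxs, _⟩ := twoN w hw hwY
        by_cases hxY : x ∈ Y
        · obtain ⟨a, b, ha, hb, hab, has, hbs⟩ := twoY x hxs hxY
          obtain ⟨w', hw'x, hww', hw's⟩ : ∃ w', P.Adj x w' ∧ w ≠ w' ∧ w' ∈ c.support := by
            by_cases hwa : w = a
            · exact ⟨b, hb, fun h => hab (hwa.symm.trans h), hbs⟩
            · exact ⟨a, ha, hwa, has⟩
          have hw'Y : w' ∉ Y := fun h => hYY x hxY w' h hw'x
          refine ⟨w', hw's, hw'Y, ?_, hww', hwY, hw'Y, Or.inr ⟨x, hxY, hx.symm, hw'x⟩⟩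
          rw [← hk1 x w' hw'x, hk1 w x hx]
        · exact ⟨x, hxs, hxY, (hk1 w x hx).symm, hx.ne, hwY, hxY, Or.inl hx⟩
      obtain ⟨y, hy, hlt⟩ := hgo w hw hwY rfl
      obtain ⟨y', hy', hlt'⟩ := hgo w' hw' hwY' hkw'
      obtain ⟨c1, hc1, hu1⟩ := hup w y hy hlt
      obtain ⟨c2, hc2, hu2⟩ := hup w' y' hy' hlt'
      have hne : c1 ≠ c2 := by
        rintro rfl
        have := hc1.symm.trans hc2
        rcases Sym2.eq_iff.1 this with ⟨h1, _⟩ | ⟨h1, _⟩
        · exact hpart.ne h1
        · rw [← h1] at hlt'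
          omega
      exact hind c1 c2 hne ⟨by rw [(hs c1).1, (hs c2).1]; exact hne,
        Or.inr ⟨w, w', hpart, hu1, hu2⟩⟩
    · intro v
      have h1 : (P ⊔ selGraph aa bb s).neighborSet v ⊆ P.neighborSet v ∪
          (selGraph aa bb s).neighborSet v := by
        intro u hu
        rcases hu with hu | hu
        · exact Or.inl hu
        · exact Or.inr hu
      have h2 := Set.ncard_le_ncard h1 (Set.toFinite _)
      have h3 := Set.ncard_union_le (P.neighborSet v) ((selGraph aa bb s).neighborSet v)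
      by_cases hv : v ∈ Y
      · have h4 : (selGraph aa bb s).neighborSet v = ∅ := by
          ext u
          constructor
          · intro hu
            exact absurd hv (hselY v u hu)
          · intro hu
            exact absurd hu (Set.notMem_empty u)
        have h6 : ((selGraph aa bb s).neighborSet v).ncard = 0 := by rw [h4, Set.ncard_empty]
        have h5 := hP2 v
        omega
      · have h4 : ((selGraph aa bb s).neighborSet v).ncard ≤ 1 :=
          (Set.ncard_le_one (Set.toFinite _)).2 fun u hu u' hu' => hseluniq v u u' hu hu'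
        have h5 := hP1 v hv
        omega
  have hQ : IsLF ((P ⊔ Q) ⊔ selGraph aa bb s) := by
    rw [sup_right_comm]
    refine isLF_sup_disj hQ0 hQLF fun a b c hab hac => ?_
    obtain ⟨haY, haP⟩ := hQP a c hac
    rcases hab with h | h
    · exact haP b h
    · exact hselY a b h haY
  have hmain := assemble hdeg s (fun c => (hs c).1) ((P ⊔ Q) ⊔ selGraph aa bb s) hQ
    (fun c => Or.inr ⟨ends_ne _, c, Or.inl ⟨rfl, rfl⟩⟩)
  have hle : selGraph aa bb s ≤ ⨆ i, H i := by
    intro u v h
    rw [iSup_adj]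
    exact hselH u v h
  rwa [sup_assoc, sup_eq_right.2 hle] at hmain

end Pool.Agent.N319.LQ
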