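import Pool.Agent.N319.LQ.StmGen
import Pool.Agent.W111.LAR.Cut

set_option autoImplicit false
set_option linter.unusedSectionVars false

/-!
# Sets of vertices of degree `r` with small boundary in sparse graphs: deep vertices on no triangle
-/

namespace Pool.Agent.N319.LQ

open Finset SimpleGraph
open Pool.Agent.W111.LAR

namespace DeepAux

variable {V : Type} [Fintype V] [DecidableEq V] (G : SimpleGraph V) [DecidableRel G.Adj]

/-- The sum of the degrees of the subgraph on a small set. -/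
theorem sparse_wt {m : ℕ} (hs : Sparse G m) {S : Finset V} (hS : S.card ≤ m) :
    wt G S S ≤ 2 * S.card := by
  set D := (S ×ˢ S).filter (fun x => G.Adj x.1 x.2) with hD
  have hwD : wt G S S = D.card := by
    rw [wt, hD, card_filter, sum_product]
  have h1 : D.card ≤ 2 * (D.image fun x => s(x.1, x.2)).card := by
    refine card_le_mul_card_image D 2 ?_
    intro e he
    obtain ⟨⟨a, b⟩, hab, rfl⟩ := mem_image.1 he
    refine (card_le_card (t := {(a, b), (b, a)}) ?_).trans card_le_two
    rintro ⟨c, d⟩ hcd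
    have h2 := (mem_filter.1 hcd).2
    rcases Sym2.eq_iff.1 h2 with ⟨h3, h4⟩ | ⟨h3, h4⟩
    · exact mem_insert.2 (Or.inl (Prod.ext h3 h4))
    · exact mem_insert.2 (Or.inr (mem_singleton.2 (Prod.ext h3 h4)))
  have h2 := hs S (D.image fun x => s(x.1, x.2)) hS (by
    intro e he
    obtain ⟨⟨a, b⟩, hab, rfl⟩ := mem_image.1 he
    obtain ⟨h3, h4⟩ := mem_filter.1 hab
    obtain ⟨h5, h6⟩ := mem_product.1 h3
    refine ⟨h4, fun x hx => ?_⟩
    rcases Sym2.mem_iff.1 hx with rfl | rfl
    · exact h5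
    · exact h6)
  rw [hwD]
  omega

/-- The ends of the walks of length `k` in `K`. -/
def ends (K : Finset V) (a : V) : ℕ → Finset V
  | 0 => {a}
  | k + 1 => (ends K a k).biUnion fun v => K.filter fun w => G.Adj v w

theorem ends_sub {K : Finset V} {a : V} (ha : a ∈ K) (k : ℕ) : ends G K a k ⊆ K := by
  cases k with
  | zero => exact singleton_subset_iff.2 ha
  | succ k => exact biUnion_subset.2 fun v _ => filter_subset _ _

theorem card_nb {r : ℕ} {v : V} (hreg : (G.neighborSet v).ncard = r) :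
    (univ.filter fun w => G.Adj v w).card = r := by
  rw [← hreg, Set.ncard_eq_toFinset_card']
  congr 1
  ext w
  simp

theorem card_ends {r : ℕ} {K : Finset V} (hreg : ∀ v ∈ K, (G.neighborSet v).ncard = r) {a : V}
    (ha : a ∈ K) (k : ℕ) : (ends G K a k).card ≤ r ^ k := by
  induction k with
  | zero => simp [ends]
  | succ k ih =>
    refine (card_biUnion_le_card_mul _ _ r fun v hv => ?_).trans ?_
    · refine (card_le_card (filter_subset_filter _ (subset_univ K))).trans
        (card_nb G (hreg v (ends_sub G ha k hv))).le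
    · rw [pow_succ]
      exact Nat.mul_le_mul_right r ih

theorem geom_le {r : ℕ} (hr : 2 ≤ r) (R : ℕ) : ∑ k ∈ range (R + 1), r ^ k ≤ r ^ (R + 1) := by
  induction R with
  | zero =>
    simp
    omega
  | succ R ih =>
    rw [sum_range_succ]
    have h1 : r ^ (R + 1 + 1) = r ^ (R + 1) * r := pow_succ _ _
    rw [h1]
    nlinarith [pow_pos (show 0 < r by omega) (R + 1)]

/-- The first exit of a walk. -/
theorem exit_walk {K : Finset V} {y w : V} (p : G.Walk y w) (hy : y ∈ K) (hw : w ∉ K) :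
    ∃ a, a ∈ K ∧ (∃ b, b ∉ K ∧ G.Adj a b) ∧ ∃ k, k + 1 ≤ p.length ∧ y ∈ ends G K a k := by
  induction p with
  | nil => exact absurd hy hw
  | @cons u v _ h q ih =>
    by_cases hv : v ∈ K
    · obtain ⟨a, h1, h2, k, h3, h4⟩ := ih hv hw
      refine ⟨a, h1, h2, k + 1, ?_, ?_⟩
      · rw [Walk.length_cons]
        omega
      · exact mem_biUnion.2 ⟨v, h4, mem_filter.2 ⟨hy, h.symm⟩⟩
    · refine ⟨u, hy, ⟨v, hv, h⟩, 0, ?_, mem_singleton_self _⟩
      rw [Walk.length_cons]
      omega

theorem deep1 (r R m : ℕ) (hr : 3 ≤ r) (hs : Sparse G m) (hm : r ^ (R + 3) ≤ m) (K : Finset V)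
    (hK : K.Nonempty) (hreg : ∀ v ∈ K, (G.neighborSet v).ncard = r) (hcut : cut G K < r) :
    ∃ y ∈ K, ∀ (w : V) (p : G.Walk y w), p.length ≤ R + 1 → w ∈ K := by
  by_contra hcon
  push Not at hcon
  set Q := K.filter (fun u => ∃ b, b ∉ K ∧ G.Adj u b) with hQ
  have hQcut : Q.card ≤ cut G K := by
    have h1 : Q.card = ∑ u ∈ Q, 1 := by simp
    have h2 : ∑ u ∈ Q, 1 ≤ ∑ u ∈ Q, ∑ v ∈ Kᶜ, (if G.Adj u v then 1 else 0) := by
      refine sum_le_sum fun u hu => ?_
      obtain ⟨huK, b, hb, hub⟩ := mem_filter.1 hu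
      have h3 : b ∈ Kᶜ := mem_compl.2 hb
      refine le_trans ?_ (single_le_sum (f := fun v => if G.Adj u v then 1 else 0)
        (fun v _ => Nat.zero_le _) h3)
      simp [hub]
    have h3 : ∑ u ∈ Q, ∑ v ∈ Kᶜ, (if G.Adj u v then 1 else 0) ≤ cut G K :=
      sum_le_sum_of_subset (filter_subset _ _)
    omega
  have hsub : K ⊆ Q.biUnion fun a => (range (R + 1)).biUnion fun k => ends G K a k := by
    intro y hy
    obtain ⟨w, p, hp, hw⟩ := hcon y hy
    obtain ⟨a, h1, h2, k, h3, h4⟩ := exit_walk G p hy hw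
    exact mem_biUnion.2 ⟨a, mem_filter.2 ⟨h1, h2⟩, mem_biUnion.2 ⟨k,
      mem_range.2 (by omega), h4⟩⟩
  have hKm : K.card ≤ m := by
    refine (card_le_card hsub).trans ((card_biUnion_le_card_mul _ _ (r ^ (R + 1)) fun a ha => ?_).trans
      (le_trans ?_ hm))
    · refine (card_biUnion_le).trans ((sum_le_sum fun k _ =>
        card_ends G hreg (mem_filter.1 ha).1 k).trans (geom_le (by omega) R))
    · have h1 : r ^ (R + 3) = r * r * r ^ (R + 1) := by ring
      rw [h1]
      refine Nat.mul_le_mul_right _ ?_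
      nlinarith
  have h1 := sparse_wt G hs hKm
  have hdeg : wt G K K + cut G K = r * K.card := by
    have h1 : wt G K K + cut G K = wt G K (K ∪ Kᶜ) :=
      (wt_union_right G K disjoint_compl_right).symm
    rw [h1, union_compl, wt]
    have h2 : ∀ u ∈ K, (∑ v, if G.Adj u v then 1 else 0) = r := by
      intro u hu
      rw [← card_filter, card_nb G (hreg u hu)]
    rw [sum_congr rfl h2, sum_const, smul_eq_mul, mul_comm]
  have hDle : wt G K K ≤ K.card * K.card - K.card := by
    have hwD : wt G K K = ((K ×ˢ K).filter (fun x => G.Adj x.1 x.2)).card := by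
      rw [wt, card_filter, sum_product]
    rw [hwD, ← offDiag_card]
    refine card_le_card ?_
    rintro ⟨u, v⟩ hx
    obtain ⟨h3, h4⟩ := mem_filter.1 hx
    obtain ⟨hu, hv⟩ := mem_product.1 h3
    exact mem_offDiag.2 ⟨hu, hv, h4.ne⟩
  have hKpos : 1 ≤ K.card := card_pos.2 hK
  have hK2 : K.card ≤ 2 := by
    by_contra h3
    push Not at h3
    nlinarith
  generalize K.card = n at *
  interval_cases n
  · omega
  · omega

theorem deep2 (r R m : ℕ) (hr : 3 ≤ r) (hs : Sparse G m) (hm : r ^ (R + 3) ≤ m) (K : Finset V)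
    (hK : K.Nonempty) (hreg : ∀ v ∈ K, (G.neighborSet v).ncard = r) (hcut : cut G K < r) :
    ∃ y ∈ K, (∀ (w : V) (p : G.Walk y w), p.length ≤ R → w ∈ K) ∧
      ∀ a b, G.Adj y a → G.Adj y b → ¬ G.Adj a b := by
  obtain ⟨y', hy', hball⟩ := deep1 G r R m hr hs hm K hK hreg hcut
  by_cases htri : ∀ a b, G.Adj y' a → G.Adj y' b → ¬ G.Adj a b
  · exact ⟨y', hy', fun w p hp => hball w p (by omega), htri⟩
  push Not at htri
  obtain ⟨a, b, ha, hb, hab⟩ := htri
  obtain ⟨y, hy, hya, hyb⟩ : ∃ y, G.Adj y' y ∧ y ≠ a ∧ y ≠ b := by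
    by_contra hcon
    push Not at hcon
    have h1 : (univ.filter fun w => G.Adj y' w) ⊆ {a, b} := by
      intro w hw
      have h2 := (mem_filter.1 hw).2
      rw [mem_insert, mem_singleton]
      by_cases h3 : w = a
      · exact Or.inl h3
      · exact Or.inr (hcon w h2 h3)
    have h2 := (card_le_card h1).trans card_le_two
    rw [card_nb G (hreg y' hy')] at h2
    omega
  refine ⟨y, hball y hy.toWalk ?_, fun w p hp => hball w (Walk.cons hy p) ?_, ?_⟩
  · simp only [SimpleGraph.Adj.toWalk, Walk.length_cons, Walk.length_nil]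
    omega
  · rw [Walk.length_cons]
    omega
  intro c d hc hd hcd
  set S : Finset V := {y', a, b, y, c, d} with hS
  have hS6 : S.card ≤ 6 := card_le_six
  have hm6 : 6 ≤ m := by
    refine le_trans ?_ hm
    calc 6 ≤ 3 ^ 3 := by norm_num
      _ ≤ r ^ 3 := Nat.pow_le_pow_left hr 3
      _ ≤ r ^ (R + 3) := Nat.pow_le_pow_right (by omega) (by omega)
  have h1 := sparse_wt G hs (hS6.trans hm6)
  have h2 : ∑ _v ∈ S, 2 < wt G S S := by
    have e : wt G S S = ∑ v ∈ S, (S.filter fun w => G.Adj v w).card := by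
      unfold wt
      refine sum_congr rfl fun v _ => ?_
      rw [card_filter]
    rw [e]
    have my' : y' ∈ S := by simp [hS]
    have ma : a ∈ S := by simp [hS]
    have mb : b ∈ S := by simp [hS]
    have my : y ∈ S := by simp [hS]
    have mc : c ∈ S := by simp [hS]
    have md : d ∈ S := by simp [hS]
    have two : ∀ v p q, p ∈ S → q ∈ S → p ≠ q → G.Adj v p → G.Adj v q →
        2 ≤ (S.filter fun w => G.Adj v w).card := by
      intro v p q hp hq hpq h1 h2
      exact one_lt_card.2 ⟨p, mem_filter.2 ⟨hp, h1⟩, q, mem_filter.2 ⟨hq, h2⟩, hpq⟩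
    refine sum_lt_sum ?_ ⟨y', my', ?_⟩
    · intro v hv
      simp only [hS, mem_insert, mem_singleton] at hv
      rcases hv with rfl | rfl | rfl | rfl | rfl | rfl
      · exact two _ a b ma mb hab.ne ha hb
      · exact two _ y' b my' mb hb.ne ha.symm hab
      · exact two _ y' a my' ma ha.ne hb.symm hab.symm
      · exact two _ c d mc md hcd.ne hc hd
      · exact two _ y d my md hd.ne hc.symm hcd
      · exact two _ y c my mc hc.ne hd.symm hcd.symm
    · exact two_lt_card.2 ⟨a, mem_filter.2 ⟨ma, ha⟩, b, mem_filter.2 ⟨mb, hb⟩, y,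
        mem_filter.2 ⟨my, hy⟩, hab.ne, hya.symm, hyb.symm⟩
  rw [sum_const, smul_eq_mul] at h2
  omega

end DeepAux

theorem deepQ : DeepStm := by
  intro V _ G r R m hr hR hs hm K hK hreg hcut
  classical
  have := Fintype.ofFinite V
  refine DeepAux.deep2 G r R m hr hs hm K hK hreg (lt_of_eq_of_lt ?_ hcut)
  have h1 : cut G K = ((K ×ˢ Kᶜ).filter (fun x => G.Adj x.1 x.2)).card := by
    rw [cut, wt, card_filter, sum_product]
  rw [h1, ← Set.ncard_coe_finset]
  congr 1
  ext ⟨a, b⟩
  simp only [coe_filter, mem_product, mem_compl, Set.mem_ofPred_eq]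
  tauto

end Pool.Agent.N319.LQ
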