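import Pool.Agent.W111.LAR.OddTop
import Pool.Agent.N319.LQ.Stm

set_option autoImplicit false

/-!
# Project LQ (helper319), MP_0a041d_co: two short cycles of a sparse graph are far apart
-/

namespace Pool.Agent.N319.LQ

open SimpleGraph Finset Pool.Agent.W111.LAR

/-- New vertices of a walk into `B` and as many edges. -/
theorem tail_count {V : Type} [DecidableEq V] {G : SimpleGraph V} (B : Finset V) {x y : V}
    (p : G.Walk x y) (hy : y ∈ B) :
    ∃ (S : Finset V) (F : Finset (Sym2 V)),
      Disjoint S B ∧ (∀ v ∈ S, v ∈ p.support) ∧ x ∈ S ∪ B ∧ S.card ≤ F.card ∧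
      S.card ≤ p.length ∧
      ∀ f ∈ F, f ∈ G.edgeSet ∧ (∀ v ∈ f, v ∈ S ∪ B) ∧ ∃ v ∈ f, v ∉ B := by
  induction p with
  | nil => exact ⟨∅, ∅, by simp, by simp, by simpa using hy, by simp, by simp, by simp⟩
  | @cons x z y h p ih =>
    obtain ⟨S, F, h1, h2, h3, h4, h5, h6⟩ := ih hy
    by_cases hx : x ∈ S ∪ B
    · exact ⟨S, F, h1, fun v hv => by rw [Walk.support_cons]; exact List.mem_cons_of_mem _ (h2 v hv),
        hx, h4, by rw [Walk.length_cons]; omega, h6⟩
    · have hxS : x ∉ S := fun h => hx (mem_union_left _ h)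
      have hxB : x ∉ B := fun h => hx (mem_union_right _ h)
      have hnF : s(x, z) ∉ F := fun hF => hx ((h6 _ hF).2.1 x (Sym2.mem_mk_left x z))
      refine ⟨insert x S, insert s(x, z) F, ?_, ?_, ?_, ?_, ?_, ?_⟩
      · rw [disjoint_insert_left]
        exact ⟨hxB, h1⟩
      · intro v hv
        rw [Walk.support_cons]
        rcases mem_insert.1 hv with rfl | hv
        · exact List.mem_cons_self
        · exact List.mem_cons_of_mem _ (h2 v hv)
      · exact mem_union_left _ (mem_insert_self _ _)
      · rw [card_insert_of_notMem hxS, card_insert_of_notMem hnF]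
        omega
      · rw [card_insert_of_notMem hxS, Walk.length_cons]
        omega
      · intro f hf
        rcases mem_insert.1 hf with rfl | hf
        · refine ⟨h, ?_, x, Sym2.mem_mk_left x z, hxB⟩
          intro v hv
          rcases Sym2.mem_iff.1 hv with rfl | rfl
          · exact mem_union_left _ (mem_insert_self _ _)
          · rcases mem_union.1 h3 with h7 | h7
            · exact mem_union_left _ (mem_insert_of_mem h7)
            · exact mem_union_right _ h7
        · obtain ⟨h7, h8, h9⟩ := h6 f hf
          refine ⟨h7, fun v hv => ?_, h9⟩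
          rcases mem_union.1 (h8 v hv) with h10 | h10
          · exact mem_union_left _ (mem_insert_of_mem h10)
          · exact mem_union_right _ h10

/-- A walk between two disjoint sets gives more new edges than new vertices. -/
theorem link {V : Type} [DecidableEq V] {G : SimpleGraph V} (A B : Finset V)
    (hAB : Disjoint A B) : ∀ (n : ℕ) {x y : V} (p : G.Walk x y), p.length ≤ n → x ∈ A → y ∈ B →
      ∃ (S : Finset V) (F : Finset (Sym2 V)), Disjoint S A ∧ Disjoint S B ∧
        S.card + 1 ≤ F.card ∧ S.card ≤ n ∧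
        ∀ f ∈ F, f ∈ G.edgeSet ∧ (∀ v ∈ f, v ∈ A ∪ B ∪ S) ∧ (∃ v ∈ f, v ∉ A) ∧
          ∃ v ∈ f, v ∉ B := by
  intro n
  induction n with
  | zero =>
    intro x y p hp hx hy
    cases p with
    | nil => exact absurd hy (disjoint_left.1 hAB hx)
    | cons h p => simp at hp
  | succ n ih =>
    intro x y p hp hx hy
    cases p with
    | nil => exact absurd hy (disjoint_left.1 hAB hx)
    | @cons _ z _ h p =>
      rw [Walk.length_cons] at hp
      by_cases hw : ∃ w ∈ p.support, w ∈ A
      · obtain ⟨w, hw, hwA⟩ := hw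
        obtain ⟨S, F, h1, h2, h3, h4, h5⟩ := ih (p.dropUntil w hw)
          ((p.length_dropUntil_le_length hw).trans (by omega)) hwA hy
        exact ⟨S, F, h1, h2, h3, by omega, h5⟩
      · push Not at hw
        obtain ⟨S, F, h1, h2, h3, h4, h5, h6⟩ := tail_count B p hy
        have hSA : Disjoint S A := disjoint_left.2 fun v hv => hw v (h2 v hv)
        have hxB : x ∉ B := disjoint_left.1 hAB hx
        have hxS : x ∉ S := fun hxS => disjoint_left.1 hSA hxS hx
        have hSBA : ∀ v ∈ S ∪ B, v ∉ A := by
          intro v hv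
          rcases mem_union.1 hv with hv | hv
          · exact disjoint_left.1 hSA hv
          · exact disjoint_right.1 hAB hv
        have hnF : s(x, z) ∉ F := by
          intro hF
          rcases mem_union.1 ((h6 _ hF).2.1 x (Sym2.mem_mk_left x z)) with h7 | h7
          · exact hxS h7
          · exact hxB h7
        refine ⟨S, insert s(x, z) F, hSA, h1, ?_, by omega, ?_⟩
        · rw [card_insert_of_notMem hnF]
          omega
        · intro f hf
          rcases mem_insert.1 hf with rfl | hf
          · refine ⟨h, ?_, ⟨z, Sym2.mem_mk_right x z, hSBA z h3⟩, x, Sym2.mem_mk_left x z, hxB⟩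
            intro v hv
            rcases Sym2.mem_iff.1 hv with rfl | rfl
            · exact mem_union_left _ (mem_union_left _ hx)
            · rcases mem_union.1 h3 with h7 | h7
              · exact mem_union_right _ h7
              · exact mem_union_left _ (mem_union_right _ h7)
          · obtain ⟨h7, h8, h9⟩ := h6 f hf
            refine ⟨h7, fun v hv => ?_, ?_, h9⟩
            · rcases mem_union.1 (h8 v hv) with h10 | h10
              · exact mem_union_right _ h10
              · exact mem_union_left _ (mem_union_right _ h10)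
            · obtain ⟨v, hv, _⟩ := h9
              exact ⟨v, hv, hSBA v (h8 v hv)⟩

theorem class_edges {V κ : Type} [Finite V] [Fintype κ] {H : κ → SimpleGraph V} (c : II H) :
    ∃ (A : Finset V) (E : Finset (Sym2 V)), A.card = csize (H c.1.1) c.1.2 ∧
      E.card = csize (H c.1.1) c.1.2 ∧ (∀ v, v ∈ A ↔ (H c.1.1).Reachable c.1.2 v) ∧
      ∀ e ∈ E, e ∈ (H c.1.1).edgeSet ∧ ∀ v ∈ e, v ∈ A := by
  classical
  have := Fintype.ofFinite V
  have : Fintype (EE H) := Fintype.ofFinite (EE H)
  refine ⟨{w | (H c.1.1).Reachable c.1.2 w}.toFinset,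
    (univ.filter (fun e : EE H => cl e = c)).image (fun e => e.1.2), ?_, ?_, ?_, ?_⟩
  · rw [csize, Set.ncard_eq_toFinset_card']
  · rw [← class_card c]
    refine card_image_of_injOn ?_
    intro e he e' he' h
    have h1 := (cl_iff e c).1 (mem_filter.1 he).2
    have h2 := (cl_iff e' c).1 (mem_filter.1 he').2
    exact Subtype.ext (Prod.ext (h1.1.trans h2.1.symm) h)
  · intro v
    rw [Set.mem_toFinset]
    exact Iff.rfl
  · intro e he
    obtain ⟨d, hd, rfl⟩ := mem_image.1 he
    obtain ⟨h1, h2⟩ := (cl_iff d c).1 (mem_filter.1 hd).2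
    have h3 := d.2.1
    rw [h1] at h3
    refine ⟨h3, fun v hv => ?_⟩
    rw [Set.mem_toFinset]
    change (H c.1.1).Reachable c.1.2 v
    have h4 := ends_reach d v (by
      rw [← mk_ends d] at hv
      rcases Sym2.mem_iff.1 hv with h | h
      · exact Or.inl h.symm
      · exact Or.inr h.symm)
    rw [h1] at h4
    exact (h4.trans h2).symm

theorem two_cycles {V κ : Type} [Finite V] [Fintype κ] {G : SimpleGraph V}
    {H : κ → SimpleGraph V} (hle : ∀ i, H i ≤ G)
    (hdis : ∀ i j, i ≠ j → ∀ u v, (H i).Adj u v → ¬ (H j).Adj u v) {m n D : ℕ}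
    (hsp : Sparse G m) (hm : 2 * n + D ≤ m) (c c' : II H) (hne : c ≠ c')
    (hc : csize (H c.1.1) c.1.2 ≤ n) (hc' : csize (H c'.1.1) c'.1.2 ≤ n) {x y : V}
    (hx : (H c.1.1).Reachable c.1.2 x) (hy : (H c'.1.1).Reachable c'.1.2 y) (p : G.Walk x y)
    (hp : p.length ≤ D) : False := by
  classical
  obtain ⟨A, E, hA1, hE1, hA, hE⟩ := class_edges c
  obtain ⟨A', E', hA1', hE1', hA', hE'⟩ := class_edges c'
  by_cases hAA : Disjoint A A'
  · obtain ⟨S, F, h1, h2, h3, h4, h5⟩ := link A A' hAA D p hp ((hA x).2 hx) ((hA' y).2 hy)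
    have h6 := hsp (A ∪ A' ∪ S) (E ∪ E' ∪ F) (by
      have := card_union_le (A ∪ A') S
      have := card_union_le A A'
      omega) (by
      intro e he
      rcases mem_union.1 he with he | he
      · rcases mem_union.1 he with he | he
        · exact ⟨edgeSet_mono (hle _) (hE e he).1, fun v hv =>
            mem_union_left _ (mem_union_left _ ((hE e he).2 v hv))⟩
        · exact ⟨edgeSet_mono (hle _) (hE' e he).1, fun v hv =>
            mem_union_left _ (mem_union_right _ ((hE' e he).2 v hv))⟩
      · exact ⟨(h5 e he).1, (h5 e he).2.1⟩)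
    have hEE : Disjoint E E' := by
      rw [Finset.disjoint_left]
      intro e he he'
      induction e using Sym2.ind with
      | _ a b =>
      exact disjoint_left.1 hAA ((hE _ he).2 a (Sym2.mem_mk_left a b))
        ((hE' _ he').2 a (Sym2.mem_mk_left a b))
    have hEF : Disjoint (E ∪ E') F := by
      rw [Finset.disjoint_left]
      intro e he heF
      rcases mem_union.1 he with he | he
      · obtain ⟨v, hv, hvA⟩ := (h5 e heF).2.2.1
        exact hvA ((hE e he).2 v hv)
      · obtain ⟨v, hv, hvA⟩ := (h5 e heF).2.2.2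
        exact hvA ((hE' e he).2 v hv)
    rw [card_union_of_disjoint hEF, card_union_of_disjoint hEE] at h6
    have h7 : (A ∪ A' ∪ S).card ≤ A.card + A'.card + S.card := by
      have := card_union_le (A ∪ A') S
      have := card_union_le A A'
      omega
    omega
  · rw [not_disjoint_iff] at hAA
    obtain ⟨v, hv, hv'⟩ := hAA
    have hij : c.1.1 ≠ c'.1.1 := by
      intro hij
      apply hne
      apply Subtype.ext
      refine Prod.ext hij ?_
      have h1 := (hA v).1 hv
      have h2 := (hA' v).1 hv'
      rw [← hij] at h2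
      rw [← c.2.2, ← c'.2.2, ← hij]
      exact rep_eq (h1.trans h2.symm)
    have hEE : Disjoint E E' := by
      rw [Finset.disjoint_left]
      intro e he he'
      induction e using Sym2.ind with
      | _ a b =>
      exact hdis _ _ hij a b (hE _ he).1 (hE' _ he').1
    have h6 := hsp (A ∪ A') (E ∪ E') (by
      have := card_union_le A A'
      omega) (by
      intro e he
      rcases mem_union.1 he with he | he
      · exact ⟨edgeSet_mono (hle _) (hE e he).1, fun v hv =>
          mem_union_left _ ((hE e he).2 v hv)⟩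
      · exact ⟨edgeSet_mono (hle _) (hE' e he).1, fun v hv =>
          mem_union_right _ ((hE' e he).2 v hv)⟩)
    rw [card_union_of_disjoint hEE] at h6
    have h7 := card_union_add_card_inter A A'
    have h8 : 0 < (A ∩ A').card := card_pos.2 ⟨v, mem_inter.2 ⟨hv, hv'⟩⟩
    omega

end Pool.Agent.N319.LQ
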