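import Pool.Agent.N319.LQ.StmLift

set_option autoImplicit false

/-!
# Project LQ (helper319), MP_0a041d_co: the leaf LIFT

In all but `O(1/N)` of the lifts of a fixed finite multigraph, no set of at most `m` vertices spans
more edges than it has vertices.
-/

namespace Pool.Agent.N319.LQ

open Finset SimpleGraph Pool.Agent.Y573.GL

/-- A graph that is not sparse has a small set spanning one edge more than it has vertices. -/
theorem denseK_of_not_sparse {V : Type} (G : SimpleGraph V) (m : ℕ) (h : ¬ Sparse G m) :
    denseK G m 1 := by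
  unfold Sparse at h
  push Not at h
  obtain ⟨S, E, hS, hE, hlt⟩ := h
  obtain ⟨E', hE', hE'c⟩ := Finset.exists_subset_card_eq (Nat.succ_le_of_lt hlt)
  exact ⟨S, E', hS, hE'c, fun e he => hE e (hE' he)⟩

theorem lift_sparse : LiftStm := by
  classical
  intro Bs I _ _ _ s t m
  set h : ℕ := m + 1 with hh
  set C : ℝ := 4 * Fintype.card I + Fintype.card Bs with hC
  have hC0 : 0 ≤ C := by positivity
  set B : ℝ := ∑ j ∈ range (m + 1), (2 : ℝ) ^ ((j + 1) ^ 2) * C ^ (2 * j + 1) with hB
  have hB0 : 0 ≤ B := sum_nonneg fun j _ => by positivity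
  refine ⟨⌈B⌉₊ + 2 * h, fun N => ?_⟩
  have hcard : Fintype.card (I → Equiv.Perm (Fin N)) = N.factorial ^ Fintype.card I := by
    rw [Fintype.card_fun, Fintype.card_perm, Fintype.card_fin]
  rw [← hcard]
  set Z : ℕ := Fintype.card (I → Equiv.Perm (Fin N)) with hZ
  have h1 : ({π : I → Equiv.Perm (Fin N) | ¬ Sparse (lift s t π) m}).ncard ≤ Z := by
    rw [hZ, ← Nat.card_eq_fintype_card, ← Set.ncard_univ]
    exact Set.ncard_le_ncard (Set.subset_univ _) (Set.toFinite _)
  rcases Nat.lt_or_ge N (2 * h) with hlt | hge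
  · exact Nat.mul_le_mul (by omega) h1
  · have hNpos : 0 < N := by omega
    have hsub : ({π : I → Equiv.Perm (Fin N) | ¬ Sparse (lift s t π) m}) ⊆
        {π | denseK (lift s t π) m 1} := fun π hπ => denseK_of_not_sparse _ _ hπ
    have h2 := Set.ncard_le_ncard hsub (Set.toFinite _)
    have key := dense_rare (V := Bs × Fin N) (Ω := I → Equiv.Perm (Fin N))
      (fun π => lift s t π) univ (fun _ _ _ _ _ => mem_univ _) m 1 (N : ℝ) C
      (by exact_mod_cast hNpos) hC0 ?_ ?_
    · have h3 : (N : ℝ) * (({π : I → Equiv.Perm (Fin N) | ¬ Sparse (lift s t π) m}).ncard : ℝ) ≤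
          B * (Z : ℝ) := by
        refine le_trans ?_ key
        rw [pow_one]
        exact mul_le_mul_of_nonneg_left (by exact_mod_cast h2) (by positivity)
      have h4 : B * (Z : ℝ) ≤ ((⌈B⌉₊ + 2 * h : ℕ) : ℝ) * (Z : ℝ) := by
        refine mul_le_mul_of_nonneg_right ?_ (by positivity)
        refine (Nat.le_ceil B).trans ?_
        exact_mod_cast Nat.le_add_right _ _
      exact_mod_cast h3.trans h4
    · rw [card_univ, Fintype.card_prod, Fintype.card_fin]
      push_cast
      refine mul_le_mul_of_nonneg_right ?_ (by positivity)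
      have : (0 : ℝ) ≤ 4 * (Fintype.card I : ℝ) := by positivity
      linarith
    · intro F hF
      have h1 := lift_spread s t h hge F ∅ (by rw [card_empty]; omega) (by simp)
      have h2 : (has (fun π : I → Equiv.Perm (Fin N) => lift s t π) F).ncard =
          ((sat (∅ : Finset (I × Fin N × Fin N))).filter
            (fun π => ∀ e ∈ F, e ∈ (lift s t π).edgeSet)).card := by
        rw [← Set.ncard_coe_finset]
        congr 1
        ext π
        simp [has, sat]
      have h3 : (sat (∅ : Finset (I × Fin N × Fin N))).card =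
          Fintype.card (I → Equiv.Perm (Fin N)) := by
        rw [sat, filter_true_of_mem (by simp), card_univ]
      rw [h2]
      rw [h3] at h1
      have h4 : (N : ℝ) ^ F.card * (((sat (∅ : Finset (I × Fin N × Fin N))).filter
            (fun π => ∀ e ∈ F, e ∈ (lift s t π).edgeSet)).card : ℝ) ≤
          (4 * (Fintype.card I : ℝ)) ^ F.card * (Fintype.card (I → Equiv.Perm (Fin N)) : ℝ) := by
        exact_mod_cast h1
      refine h4.trans ?_
      refine mul_le_mul_of_nonneg_right ?_ (by positivity)
      refine pow_le_pow_left₀ (by positivity) ?_ _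
      have : (0 : ℝ) ≤ (Fintype.card Bs : ℝ) := by positivity
      linarith

end Pool.Agent.N319.LQ
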