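import Pool.Agent.N319.LQ.Stm

set_option autoImplicit false

/-!
# Project LQ (helper319), MP_0a041d_co: leaf SEP for graphs that need not be regular
-/

namespace Pool.Agent.N319.LQ

open SimpleGraph

/-- Leaf SEP without regularity: `G` has maximum degree at most `r`, and only the vertices of degree
`r` have to be covered. -/
def SepGen : Prop :=
  ∀ (V : Type) [Finite V] (G : SimpleGraph V) (r R m : ℕ), 3 ≤ r → 1 ≤ R → Odd r →
    (∀ v, (G.neighborSet v).ncard ≤ r) → Sparse G m → r ^ (R + 3) ≤ m →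
    ∃ (P : SimpleGraph V) (Y : Set V), P ≤ G ∧
      (∀ v, (G.neighborSet v).ncard = r → 1 ≤ (P.neighborSet v).ncard) ∧
      (∀ v, v ∉ Y → (P.neighborSet v).ncard ≤ 1) ∧ (∀ v, (P.neighborSet v).ncard ≤ 2) ∧
      (∀ y ∈ Y, ∀ a b, G.Adj y a → G.Adj y b → ¬ G.Adj a b) ∧
      ∀ a ∈ Y, ∀ b ∈ Y, a ≠ b → ∀ p : G.Walk a b, 2 * R + 1 ≤ p.length

/-- The deep vertex of a set of vertices of degree `r` with small boundary, on no triangle. Here
the boundary is `Pool.Agent.W111.LAR.cut` spelled out. -/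
def DeepStm : Prop :=
  ∀ (V : Type) [Finite V] (G : SimpleGraph V) (r R m : ℕ), 3 ≤ r → 1 ≤ R → Sparse G m →
    r ^ (R + 3) ≤ m → ∀ K : Finset V, K.Nonempty → (∀ v ∈ K, (G.neighborSet v).ncard = r) →
    {x : V × V | x.1 ∈ K ∧ x.2 ∉ K ∧ G.Adj x.1 x.2}.ncard < r →
    ∃ y ∈ K, (∀ (w : V) (p : G.Walk y w), p.length ≤ R → w ∈ K) ∧
      ∀ a b, G.Adj y a → G.Adj y b → ¬ G.Adj a b

end Pool.Agent.N319.LQ
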