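import Pool.Agent.N319.LQ.Tut2
import Pool.Agent.N319.LQ.StmGen
import Pool.Agent.N319.LQ.Deep

set_option autoImplicit false

/-!
# Project LQ (helper319), MP_0a041d_co: leaf SEP for graphs that need not be regular
-/

namespace Pool.Agent.N319.LQ

open Finset SimpleGraph Pool.Agent.W111.LAR

theorem cut_ncard {V : Type} [Fintype V] [DecidableEq V] (G : SimpleGraph V) [DecidableRel G.Adj]
    (K : Finset V) :
    {x : V × V | x.1 ∈ K ∧ x.2 ∉ K ∧ G.Adj x.1 x.2}.ncard = cut G K := by
  classical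
  have h1 : {x : V × V | x.1 ∈ K ∧ x.2 ∉ K ∧ G.Adj x.1 x.2} =
      (((K ×ˢ Kᶜ).filter (fun x => G.Adj x.1 x.2) : Finset (V × V)) : Set (V × V)) := by
    ext ⟨u, v⟩
    simp only [Set.mem_ofPred_eq, coe_filter, mem_product, mem_compl]
    tauto
  rw [h1, Set.ncard_coe_finset, cut, wt, card_filter, sum_product]

theorem sepGen : SepGen := by
  intro V _ G r R m hr hR _ hdeg hsp hm
  classical
  have := Fintype.ofFinite V
  let D : Set V := {v | (G.neighborSet v).ncard ≠ r}
  let T := {K : Finset V // Mini G r K ∧ ∀ v ∈ K, (G.neighborSet v).ncard = r}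
  have hdeep : ∀ t : T, ∃ y ∈ t.1, (∀ (w : V) (p : G.Walk y w), p.length ≤ R → w ∈ t.1) ∧
      ∀ a b, G.Adj y a → G.Adj y b → ¬ G.Adj a b :=
    fun t => deepQ V G r R m hr hR hsp hm t.1 t.2.1.1 t.2.2 (by
      rw [cut_ncard]
      exact t.2.1.2.1)
  choose y hy1 hy2 hy3 using hdeep
  have hsep : ∀ t t' : T, t ≠ t' → ∀ p : G.Walk (y t) (y t'), 2 * R + 1 ≤ p.length := by
    intro t t' hne p
    by_contra hlt
    push Not at hlt
    have h1 : p.getVert R ∈ t.1 := by
      refine hy2 t _ (p.take R) ?_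
      rw [Walk.take_length]
      exact min_le_left _ _
    have h2 : p.getVert R ∈ t'.1 := by
      refine hy2 t' _ (p.drop R).reverse ?_
      rw [Walk.length_reverse, Walk.drop_length]
      omega
    have h3 := mini_disj G t.2.1 t'.2.1 (fun h => hne (Subtype.ext h))
    exact Finset.disjoint_left.1 h3 h1 h2
  have hinj : Function.Injective y := by
    intro t t' h
    by_contra hne
    have := hsep t t' hne ((Walk.nil : G.Walk (y t) (y t)).copy rfl h)
    rw [Walk.length_copy, Walk.length_nil] at this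
    omega
  have hnadj : ∀ t t', ¬ G.Adj (y t) (y t') := by
    intro t t' h
    have hne : t ≠ t' := by
      rintro rfl
      exact G.irrefl h
    have := hsep t t' hne h.toWalk
    have h1 : h.toWalk.length = 1 := by simp [SimpleGraph.Adj.toWalk]
    omega
  let p : ℕ := Fintype.card (Finset V) +
    (Nat.card V + Nat.card T + Fintype.card (Finset V)) % 2
  have hev : Even (Nat.card (V ⊕ (T ⊕ Fin p))) := by
    rw [Nat.card_sum, Nat.card_sum, Nat.card_fin, Nat.even_iff]
    omega
  obtain ⟨M, hM⟩ := twin_pmD G y p D r (by omega) hdeg hev (Nat.le_add_right _ _) (by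
    intro X hX hXD hc
    obtain ⟨K, hKX, hK⟩ := exists_mini G hX hc
    have hKr : ∀ v ∈ K, (G.neighborSet v).ncard = r := by
      intro v hv
      by_contra h
      exact hXD v (hKX hv) h
    let t : T := ⟨K, hK, hKr⟩
    refine ⟨t, hKX (hy1 t), ?_⟩
    have h1 : (G.neighborSet (y t)).Nonempty := by
      rw [← Set.ncard_pos (Set.toFinite _), hKr _ (hy1 t)]
      omega
    obtain ⟨v, hv⟩ := h1
    have hv' : G.Adj (y t) v := hv
    refine ⟨v, hKX (hy2 t v hv'.toWalk ?_), hv'⟩
    simp only [SimpleGraph.Adj.toWalk, Walk.length_cons, Walk.length_nil]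
    omega)
  obtain ⟨P, hP1, hP2, hP3, hP4⟩ := exists_PD G y p D M hM hinj hnadj
  refine ⟨P, Set.range y, hP1, fun v hv => hP2 v (fun h => h hv), hP3, hP4, ?_, ?_⟩
  · rintro _ ⟨t, rfl⟩ a b ha hb
    exact hy3 t a b ha hb
  · rintro _ ⟨t, rfl⟩ _ ⟨t', rfl⟩ hne q
    exact hsep t t' (fun h => hne (by rw [h])) q

end Pool.Agent.N319.LQ
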