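import Pool.Agent.N319.LQ.Core
import Pool.Agent.N319.LQ.CovQ
import Pool.Agent.N319.LQ.SepG
import Pool.Agent.N319.LQ.Lift

set_option autoImplicit false

/-!
# Project LQ (helper319), MP_0a041d_co: main theorem
-/

namespace Pool.Agent.N319.LQ

open SimpleGraph H931R3.LA Pool.Agent.W111.LAR

/-- Graphs of maximum degree at most `2 k + 1` in which no set of at most `(2 k + 1) ^ 7` vertices
spans more edges than vertices are covered by `k + 1` linear forests. -/
theorem cov_sparse {V : Type} [Finite V] (G : SimpleGraph V) (k : ℕ)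
    (hdeg : ∀ v, (G.neighborSet v).ncard ≤ 2 * k + 1) (hsp : Sparse G ((2 * k + 1) ^ 7)) :
    Cov G (k + 1) := by
  rcases Nat.eq_zero_or_pos k with hk | hk
  · subst hk
    have h1 := cov_matching (fun i : Fin 0 => (⊥ : SimpleGraph V)) G (fun i => i.elim0)
      (fun v => by have := hdeg v; omega) 0 (by simp) (fun i => i.elim0)
    simpa using h1
  · obtain ⟨P, Y, hPG, hPpos, hP1, hP2, htri, hsep⟩ := sepGen V G (2 * k + 1) 4
      ((2 * k + 1) ^ 7) (by omega) (by omega) ⟨k, rfl⟩ hdeg hsp (by norm_num)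
    refine core covQ G k (12 * k - 8) ((2 * k + 1) ^ 7) (by omega) hsp ?_ P Y hPG hP1 hP2 ?_
      htri (fun a ha b hb hab p => hsep a ha b hb hab p)
    · have h1 : 3 ^ 6 ≤ (2 * k + 1) ^ 6 := Nat.pow_le_pow_left (by omega) 6
      have h2 : (2 * k + 1) ^ 7 = (2 * k + 1) ^ 6 * (2 * k + 1) := pow_succ _ _
      have h3 : 3 ^ 6 * (2 * k + 1) ≤ (2 * k + 1) ^ 6 * (2 * k + 1) := Nat.mul_le_mul_right _ h1
      rw [h2]
      omega
    · intro v
      have h4 : (G \ P).neighborSet v = G.neighborSet v \ P.neighborSet v := by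
        ext u
        simp
      have h5 : P.neighborSet v ⊆ G.neighborSet v := fun u hu => hPG hu
      have h6 := Set.ncard_sdiff_add_ncard_of_subset h5 (Set.toFinite _)
      rw [h4]
      by_cases h7 : (G.neighborSet v).ncard = 2 * k + 1
      · have h8 := hPpos v h7
        omega
      · have h8 := hdeg v
        omega

end Pool.Agent.N319.LQ
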