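import Pool.Agent.N319.LQ.Acyc
import Pool.Agent.N319.LQ.Far

set_option autoImplicit false

/-!
# Project LQ (helper319), MP_0a041d_co: preparations
-/

namespace Pool.Agent.N319.LQ

open SimpleGraph Pool.Agent.W111.LAR

/-- Petersen's decomposition with edge disjoint parts. -/
theorem decomp_disj {V : Type} [Finite V] (G : SimpleGraph V) (k : ℕ)
    (hdeg : ∀ v, (G.neighborSet v).ncard ≤ 2 * k) :
    ∃ H : Fin k → SimpleGraph V, (∀ i v, ((H i).neighborSet v).ncard ≤ 2) ∧ (⨆ i, H i) = G ∧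
      ∀ i j, i ≠ j → ∀ u v, (H i).Adj u v → ¬ (H j).Adj u v := by
  obtain ⟨H, hH, hsup⟩ := decomp G k hdeg
  let H' : Fin k → SimpleGraph V := fun i =>
    { Adj := fun u v => (H i).Adj u v ∧ ∀ j < i, ¬ (H j).Adj u v
      symm.symm := fun u v h => ⟨h.1.symm, fun j hj h' => h.2 j hj h'.symm⟩
      loopless.irrefl := fun u h => (H i).loopless.irrefl u h.1 }
  have hle : ∀ i, H' i ≤ H i := fun i u v h => h.1
  refine ⟨H', fun i v => (Set.ncard_le_ncard (fun u hu => hle i hu) (Set.toFinite _)).trans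
    (hH i v), ?_, ?_⟩
  · apply le_antisymm
    · exact (iSup_mono hle).trans hsup.le
    · rw [← hsup]
      intro u v h
      rw [iSup_adj] at h ⊢
      obtain ⟨i, hi⟩ := h
      obtain ⟨j, hj1, hj2⟩ := WellFounded.has_min (r := fun a b : Fin k => a < b)
        wellFounded_lt {i | (H i).Adj u v} ⟨i, hi⟩
      exact ⟨j, hj1, fun l hl h => hj2 l h hl⟩
  · intro i j hij u v h h'
    rcases lt_or_gt_of_ne hij with h1 | h1
    · exact h'.2 i h1 h.1
    · exact h.2 j h1 h'.1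

/-- A cyclic component contains an edge that avoids a set of pairwise distant vertices. -/
theorem good_edge {V : Type} [Finite V] {H G : SimpleGraph V} (hHG : H ≤ G) {Y : Set V}
    (hsep : ∀ a ∈ Y, ∀ b ∈ Y, a ≠ b → ∀ p : G.Walk a b, 3 ≤ p.length) {x : V} (hx : Cyc H x) :
    ∃ a b, H.Reachable x a ∧ H.Adj a b ∧ a ∉ Y ∧ b ∉ Y := by
  have h1 : ∀ a b, a ∈ Y → G.Adj a b → b ∉ Y := by
    intro a b ha hab hb
    have := hsep a ha b hb hab.ne hab.toWalk
    simp [SimpleGraph.Adj.toWalk] at this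
  have h2 : ∀ a b c, a ∈ Y → G.Adj a b → G.Adj b c → a ≠ c → c ∉ Y := by
    intro a b c ha hab hbc hac hc
    have := hsep a ha c hc hac (Walk.cons hab (Walk.cons hbc Walk.nil))
    simp at this
  have htwo : ∀ w, H.Reachable x w → ∀ u, ∃ z, H.Adj w z ∧ z ≠ u := by
    intro w hw u
    obtain ⟨p, q, hpq, hset⟩ := Set.ncard_eq_two.1 (hx w hw)
    have hp : p ∈ H.neighborSet w := by rw [hset]; simp
    have hq : q ∈ H.neighborSet w := by rw [hset]; simp
    by_cases h : p = u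
    · exact ⟨q, hq, fun h' => hpq (h.trans h'.symm)⟩
    · exact ⟨p, hp, h⟩
  by_cases hxY : x ∈ Y
  · obtain ⟨a, ha, _⟩ := htwo x (Reachable.refl x) x
    obtain ⟨b, hb, hbx⟩ := htwo a ha.reachable x
    exact ⟨a, b, ha.reachable, hb, h1 x a hxY (hHG ha), h2 x a b hxY (hHG ha) (hHG hb) hbx.symm⟩
  · obtain ⟨a, ha, _⟩ := htwo x (Reachable.refl x) x
    by_cases haY : a ∈ Y
    · obtain ⟨b, hb, hba⟩ := htwo x (Reachable.refl x) a
      exact ⟨x, b, Reachable.refl x, hb, hxY, h2 a x b haY (hHG ha).symm (hHG hb) hba.symm⟩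
    · exact ⟨x, a, Reachable.refl x, ha, hxY, haY⟩

theorem P_reach {V : Type} [Finite V] {P : SimpleGraph V} {Y : Set V}
    (hP1 : ∀ v, v ∉ Y → (P.neighborSet v).ncard ≤ 1) (hYY : ∀ a ∈ Y, ∀ b ∈ Y, ¬ P.Adj a b)
    {v w : V} (h : P.Reachable v w) : v = w ∨ P.Adj v w ∨ ∃ y, P.Adj y v ∧ P.Adj y w := by
  obtain ⟨key, hk1, hk2⟩ := exists_key2 P Y hP1 hYY
  refine hk2 v w ?_
  obtain ⟨p⟩ := h
  induction p with
  | nil => rfl
  | cons h p ih => exact (hk1 _ _ h).trans ih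

theorem P_walk {V : Type} [Finite V] {P G : SimpleGraph V} {Y : Set V} (hPG : P ≤ G)
    (hP1 : ∀ v, v ∉ Y → (P.neighborSet v).ncard ≤ 1) (hYY : ∀ a ∈ Y, ∀ b ∈ Y, ¬ P.Adj a b)
    {v w : V} (h : P.Reachable v w) : ∃ p : G.Walk v w, p.length ≤ 2 := by
  rcases P_reach hP1 hYY h with rfl | h | ⟨y, h1, h2⟩
  · exact ⟨Walk.nil, by simp⟩
  · exact ⟨(hPG h).toWalk, by simp [SimpleGraph.Adj.toWalk]⟩
  · exact ⟨Walk.cons (hPG h1).symm (Walk.cons (hPG h2) Walk.nil), by simp⟩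

theorem P_card {V : Type} [Finite V] {P : SimpleGraph V} {Y : Set V}
    (hP1 : ∀ v, v ∉ Y → (P.neighborSet v).ncard ≤ 1) (hP2 : ∀ v, (P.neighborSet v).ncard ≤ 2)
    (hYY : ∀ a ∈ Y, ∀ b ∈ Y, ¬ P.Adj a b) {u : V} (hu : u ∉ Y) :
    {w | P.Reachable u w}.ncard ≤ 4 := by
  obtain ⟨y0, hy0⟩ : ∃ y0, ∀ y, P.Adj u y → y = y0 := by
    by_cases h : ∃ y, P.Adj u y
    · obtain ⟨y0, h0⟩ := h
      exact ⟨y0, fun y hy => (Set.ncard_le_one (Set.toFinite _)).1 (hP1 u hu) y hy y0 h0⟩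
    · exact ⟨u, fun y hy => absurd ⟨y, hy⟩ h⟩
  have hsub : {w | P.Reachable u w} ⊆ ({u, y0} : Set V) ∪ P.neighborSet y0 := by
    intro w hw
    rcases P_reach hP1 hYY hw with rfl | h | ⟨y, h1, h2⟩
    · exact Or.inl (Or.inl rfl)
    · exact Or.inl (Or.inr (hy0 w h))
    · right
      rw [← hy0 y h1.symm]
      exact h2
  have h1 := Set.ncard_le_ncard hsub (Set.toFinite _)
  have h2 := Set.ncard_union_le ({u, y0} : Set V) (P.neighborSet y0)
  have h3 : ({u, y0} : Set V).ncard ≤ 2 := by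
    have := Set.ncard_insert_le u ({y0} : Set V)
    rw [Set.ncard_singleton] at this
    exact this
  have h4 := hP2 y0
  omega

/-- A cyclic component of a subgraph is one of the graph, if the degrees are at most two. -/
theorem cyc_sub {V : Type} [Finite V] {H' H : SimpleGraph V} (hle : H' ≤ H)
    (hdeg : ∀ v, (H.neighborSet v).ncard ≤ 2) {v : V} (hv : Cyc H' v) :
    (∀ w, H.Reachable v w ↔ H'.Reachable v w) ∧ (∀ w, H.Reachable v w →
      H'.neighborSet w = H.neighborSet w) ∧ Cyc H v := by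
  have h1 : ∀ w, H'.Reachable v w → H'.neighborSet w = H.neighborSet w := by
    intro w hw
    refine Set.eq_of_subset_of_ncard_le (fun u hu => hle hu) ?_ (Set.toFinite _)
    rw [hv w hw]
    exact hdeg w
  have h2 : ∀ w, H.Reachable v w → H'.Reachable v w := by
    intro w hw
    obtain ⟨p⟩ := hw
    have key : ∀ {x y : V} (_ : H.Walk x y), H'.Reachable v x → H'.Reachable v y := by
      intro x y q
      induction q with
      | nil => exact id
      | @cons x z y h q ih =>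
        intro hx
        refine ih (hx.trans ?_)
        have h3 : z ∈ H'.neighborSet x := by rw [h1 x hx]; exact h
        exact SimpleGraph.Adj.reachable h3
    exact key p (Reachable.refl v)
  refine ⟨fun w => ⟨h2 w, fun h => h.mono hle⟩, fun w hw => h1 w (h2 w hw), fun w hw => ?_⟩
  rw [← h1 w (h2 w hw)]
  exact hv w (h2 w hw)

end Pool.Agent.N319.LQ
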