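import Pool.Agent.Y573.GL.AllG

set_option autoImplicit false

/-!
# Project LQ (helper319), MP_0a041d_co: small dense sets in random graphs of bounded degree

Modifications of `degseq` and `all_graphs` in `Pool.Agent.Y573.GL`: in a random graph with a given
bounded degree sequence, and in a random graph of bounded maximum degree, it is unlikely that a set
of at most `s` vertices spans at least `K` edges more than it has vertices.
-/

namespace Pool.Agent.N319.LQ

open Finset Pool.Agent.Y573.GL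

/-- Random graphs with a given degree sequence. -/
theorem degseqK (Δ s K : ℕ) :
    ∃ B : ℝ, 0 < B ∧ ∀ n : ℕ, ∀ d : Fin n → ℕ, (∀ v, d v ≤ Δ) →
      ((∑ v, d v : ℕ) : ℝ) ^ K *
        (({G : SimpleGraph (Fin n) | (∀ v, (G.neighborSet v).ncard = d v) ∧
        denseK G s K}.ncard : ℕ) : ℝ) ≤
      B * (({G : SimpleGraph (Fin n) | ∀ v, (G.neighborSet v).ncard = d v}.ncard : ℕ) : ℝ) := by
  classical
  set h : ℕ := s + K with hh
  set C : ℝ := (2 * (Δ * Δ) + 1 : ℝ) with hC
  have hC0 : 0 ≤ C := by positivity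
  set B : ℝ := ∑ j ∈ range (s + 1), (2 : ℝ) ^ ((j + 1) ^ 2) * C ^ (2 * j + K) + 1 with hB
  have hBpos : 0 < B := by
    have : 0 ≤ ∑ j ∈ range (s + 1), (2 : ℝ) ^ ((j + 1) ^ 2) * C ^ (2 * j + K) :=
      sum_nonneg fun j _ => by positivity
    linarith
  set M0 : ℕ := 4 * (h + 1) + 4 * ((Δ + 2) * Δ) with hM0
  refine ⟨B + (M0 : ℝ) ^ K, by positivity, fun n d hd => ?_⟩
  set M : ℕ := ∑ v, d v with hM
  set N : ℝ := (({G : SimpleGraph (Fin n) | ∀ v, (G.neighborSet v).ncard = d v}.ncard : ℕ) : ℝ)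
    with hN
  have hN0 : 0 ≤ N := by positivity
  rcases Nat.lt_or_ge M M0 with hlt | hge
  · have h1 : (({G : SimpleGraph (Fin n) | (∀ v, (G.neighborSet v).ncard = d v) ∧
        denseK G s K}.ncard : ℕ) : ℝ) ≤ N := by
      rw [hN]
      have hsub : {G : SimpleGraph (Fin n) | (∀ v, (G.neighborSet v).ncard = d v) ∧
        denseK G s K} ⊆ {G | ∀ v, (G.neighborSet v).ncard = d v} := fun G hG => hG.1
      exact_mod_cast Set.ncard_le_ncard hsub (Set.toFinite _)
    have h2 : (M : ℝ) ≤ (M0 : ℝ) := by exact_mod_cast hlt.le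
    have h3 : (M : ℝ) ^ K ≤ (M0 : ℝ) ^ K := pow_le_pow_left₀ (by positivity) h2 K
    calc (M : ℝ) ^ K * _ ≤ (M : ℝ) ^ K * N := mul_le_mul_of_nonneg_left h1 (by positivity)
      _ ≤ (M0 : ℝ) ^ K * N := mul_le_mul_of_nonneg_right h3 hN0
      _ ≤ _ := mul_le_mul_of_nonneg_right (by linarith) hN0
  · have hMpos : 0 < M := lt_of_lt_of_le (by omega) hge
    let Ω := {G : SimpleGraph (Fin n) // ∀ v, (G.neighborSet v).ncard = d v}
    have hfin : Fintype Ω := Fintype.ofFinite Ω
    have hcardΩ : (Fintype.card Ω : ℝ) = N := by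
      rw [hN, ← Nat.card_eq_fintype_card]
      rfl
    have himg : ∀ P : SimpleGraph (Fin n) → Prop,
        ({ω : Ω | P ω.1} : Set Ω).ncard =
        ({G : SimpleGraph (Fin n) | (∀ v, (G.neighborSet v).ncard = d v) ∧ P G}).ncard := by
      intro P
      rw [← Set.ncard_image_of_injective _ Subtype.val_injective]
      congr 1
      ext G
      constructor
      · rintro ⟨ω, hω, rfl⟩
        exact ⟨ω.2, hω⟩
      · rintro ⟨h1, h2⟩
        exact ⟨⟨G, h1⟩, h2, rfl⟩
    have key := dense_rare (fun ω : Ω => ω.1) (univ.filter (fun v => d v ≠ 0)) ?_ s K (M : ℝ) C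
      (by exact_mod_cast hMpos) hC0 ?_ ?_
    · rw [hcardΩ] at key
      rw [himg (fun G => denseK G s K)] at key
      refine key.trans ?_
      refine mul_le_mul_of_nonneg_right ?_ hN0
      have : (0 : ℝ) ≤ (M0 : ℝ) ^ K := by positivity
      linarith
    · intro ω e he x hx
      rw [mem_filter]
      refine ⟨mem_univ _, ?_⟩
      rw [← ω.2 x]
      induction e using Sym2.ind with
      | _ a b =>
      have hab : ω.1.Adj a b := he
      rcases Sym2.mem_iff.1 hx with rfl | rfl
      · exact ((Set.ncard_pos (Set.toFinite _)).2 ⟨b, hab⟩).ne'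
      · exact ((Set.ncard_pos (Set.toFinite _)).2 ⟨a, hab.symm⟩).ne'
    · have h1 : (univ.filter (fun v => d v ≠ 0)).card ≤ M := by
        rw [card_eq_sum_ones, hM]
        refine (sum_le_sum fun v hv => ?_).trans (sum_le_sum_of_subset (subset_univ _))
        have := (mem_filter.1 hv).2
        omega
      have h2 : ((univ.filter (fun v => d v ≠ 0)).card : ℝ) ≤ (M : ℝ) := by exact_mod_cast h1
      refine h2.trans ?_
      have h3 : (0 : ℝ) ≤ (M : ℝ) := by positivity
      have h4 : (0 : ℝ) ≤ (Δ : ℝ) * Δ := by positivity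
      rw [hC]
      nlinarith
    · intro F hF
      rw [hcardΩ]
      have h1 := pwd Δ h n d hd hge F (by omega)
      have h2 : (has (fun ω : Ω => ω.1) F).ncard = (regd n d F).ncard := by
        unfold has regd
        exact himg (fun G => ∀ e ∈ F, e ∈ G.edgeSet)
      have h3 : ((regd n d ∅).ncard : ℝ) = N := by
        rw [hN]
        congr 2
        ext G
        simp [regd]
      rw [h2, ← h3]
      have h4 : ((M : ℝ)) ^ F.card * ((regd n d F).ncard : ℝ) ≤
          (2 * (Δ * Δ) : ℝ) ^ F.card * ((regd n d ∅).ncard : ℝ) := by exact_mod_cast h1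
      refine h4.trans ?_
      refine mul_le_mul_of_nonneg_right ?_ (by positivity)
      exact pow_le_pow_left₀ (by positivity) (by rw [hC]; linarith) _

/-- Almost all graphs of maximum degree at most `Δ`. -/
theorem all_graphsK (Δ s K : ℕ) (hK : 1 ≤ K) :
    ∃ B : ℝ, 0 < B ∧ ∀ n : ℕ,
      (n : ℝ) ^ K * (({G : SimpleGraph (Fin n) | (∀ v, (G.neighborSet v).ncard ≤ Δ) ∧
          denseK G s K}.ncard : ℕ) : ℝ) ≤
        B * (({G : SimpleGraph (Fin n) | ∀ v, (G.neighborSet v).ncard ≤ Δ}.ncard : ℕ) : ℝ) := by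
  classical
  obtain ⟨B, hB, hd⟩ := degseqK Δ s K
  have hp1 : (0 : ℝ) ≤ (8 * Δ : ℝ) ^ K := by positivity
  have hp2 : (0 : ℝ) ≤ (8 * K + 4 : ℝ) ^ K := by positivity
  have hp3 : (1 : ℝ) ≤ (4 : ℝ) ^ K := one_le_pow₀ (by norm_num)
  refine ⟨4 ^ K * B + ((8 * Δ : ℝ) ^ K + (8 * K + 4 : ℝ) ^ K), by positivity, fun n => ?_⟩
  have hdd := hd n
  -- counts as finsets
  have hc : ∀ (P : SimpleGraph (Fin n) → Prop) [DecidablePred P],
      ({G : SimpleGraph (Fin n) | P G}.ncard) = (univ.filter P).card := by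
    intro P _
    rw [← Set.ncard_coe_finset]
    congr 1
    ext G
    simp
  have hGD : ({G : SimpleGraph (Fin n) | ∀ v, (G.neighborSet v).ncard ≤ Δ}.ncard) =
      (GD n Δ).card := by
    rw [GD]
    exact hc _
  rw [hGD]
  set bad : Finset (SimpleGraph (Fin n)) :=
    (GD n Δ).filter (fun G => denseK G s K) with hbad
  have hbadc : ({G : SimpleGraph (Fin n) | (∀ v, (G.neighborSet v).ncard ≤ Δ) ∧
          denseK G s K}.ncard) = bad.card := by
    rw [hc, hbad, GD, filter_filter]
  rw [hbadc]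
  rcases Nat.eq_zero_or_pos Δ with h0 | hΔ
  · -- no edges: no dense set
    have : bad = ∅ := by
      rw [hbad, filter_eq_empty_iff]
      rintro G hG ⟨S, E, hS, hE, hh⟩
      have hG' := (mem_filter.1 hG).2
      have hEne : E.Nonempty := card_pos.1 (by omega)
      obtain ⟨e, he⟩ := hEne
      have h1 := (hh e he).1
      induction e using Sym2.ind with
      | _ a b =>
      have h2 : G.Adj a b := h1
      have h3 := hG' a
      rw [h0] at h3
      have h4 : 0 < (G.neighborSet a).ncard := (Set.ncard_pos (Set.toFinite _)).2 ⟨b, h2⟩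
      omega
    rw [this]
    simp only [card_empty, Nat.cast_zero, mul_zero]
    positivity
  -- split
  set small : Finset (SimpleGraph (Fin n)) :=
    (GD n Δ).filter (fun G => 4 * ∑ v, ds G v ≤ n) with hsmall
  set bigbad : Finset (SimpleGraph (Fin n)) :=
    bad.filter (fun G => ¬ 4 * ∑ v, ds G v ≤ n) with hbigbad
  have hsplit : bad.card ≤ small.card + bigbad.card := by
    rw [← card_filter_add_card_filter_not (s := bad) (fun G => 4 * ∑ v, ds G v ≤ n)]
    refine Nat.add_le_add_right (card_le_card ?_) _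
    intro G hG
    rw [mem_filter] at hG ⊢
    exact ⟨(mem_filter.1 hG.1).1, hG.2⟩
  have hsm : (n : ℝ) ^ K * (small.card : ℝ) ≤
      ((8 * Δ : ℝ) ^ K + (8 * K + 4 : ℝ) ^ K) * ((GD n Δ).card : ℝ) := by
    have h5 : (0 : ℝ) ≤ ((GD n Δ).card : ℝ) := by positivity
    rcases Nat.lt_or_ge n (8 * K + 4) with h4 | h4
    · have h1 : (small.card : ℝ) ≤ ((GD n Δ).card : ℝ) := by
        exact_mod_cast card_filter_le _ _
      have h2 : (n : ℝ) ≤ 8 * K + 4 := by exact_mod_cast h4.le
      have h3 : (n : ℝ) ^ K ≤ (8 * K + 4 : ℝ) ^ K := pow_le_pow_left₀ (by positivity) h2 K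
      calc (n : ℝ) ^ K * (small.card : ℝ) ≤ (8 * K + 4 : ℝ) ^ K * ((GD n Δ).card : ℝ) :=
            mul_le_mul h3 h1 (by positivity) (by positivity)
        _ ≤ _ := mul_le_mul_of_nonneg_right (by linarith) h5
    · have h1 := few_smallK Δ n hΔ (by omega) K (n / 4) (by omega)
      have h6 : small.card ≤ (GS n Δ (n / 4)).card := by
        refine card_le_card fun G hG => ?_
        rw [hsmall, mem_filter] at hG
        rw [GS, mem_filter]
        exact ⟨hG.1, by omega⟩
      have h7 : n ^ K * small.card ≤ (8 * Δ) ^ K * (GD n Δ).card :=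
        (Nat.mul_le_mul_left _ h6).trans h1
      have h2 : (n : ℝ) ^ K * (small.card : ℝ) ≤ (8 * Δ : ℝ) ^ K * ((GD n Δ).card : ℝ) := by
        exact_mod_cast h7
      refine h2.trans (mul_le_mul_of_nonneg_right (by linarith) h5)
  -- the large ones, degree sequence by degree sequence
  have hbig : (n : ℝ) ^ K * (bigbad.card : ℝ) ≤ 4 ^ K * B * ((GD n Δ).card : ℝ) := by
    set D : Finset (Fin n → ℕ) := (GD n Δ).image ds with hD
    have hb1 : bigbad.card = ∑ d ∈ D, (bigbad.filter (fun G => ds G = d)).card := by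
      refine card_eq_sum_card_fiberwise fun G hG => ?_
      have hG' : G ∈ bigbad := hG
      rw [hD, mem_coe]
      exact mem_image_of_mem _ (mem_filter.1 (mem_filter.1 hG').1).1
    have hb2 : (GD n Δ).card = ∑ d ∈ D, ((GD n Δ).filter (fun G => ds G = d)).card := by
      refine card_eq_sum_card_fiberwise fun G hG => ?_
      rw [hD, mem_coe]
      exact mem_image_of_mem _ hG
    rw [hb1, hb2]
    push_cast
    rw [mul_sum, mul_sum]
    refine sum_le_sum fun d hd' => ?_
    obtain ⟨G0, hG0, rfl⟩ := mem_image.1 hd'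
    have hdΔ : ∀ v, ds G0 v ≤ Δ := (mem_filter.1 hG0).2
    by_cases hne : (bigbad.filter (fun G => ds G = ds G0)).card = 0
    · rw [hne]
      simp only [Nat.cast_zero, mul_zero]
      positivity
    · obtain ⟨G1, hG1⟩ := card_pos.1 (Nat.pos_of_ne_zero hne)
      have hM : n ≤ 4 * ∑ v, ds G0 v := by
        have h1 := (mem_filter.1 (mem_filter.1 hG1).1).2
        rw [(mem_filter.1 hG1).2] at h1
        omega
      have h1 := hdd (ds G0) hdΔ
      have h3 : ((bigbad.filter (fun G => ds G = ds G0)).card : ℝ) ≤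
          (({G : SimpleGraph (Fin n) | (∀ v, (G.neighborSet v).ncard = ds G0 v) ∧
          denseK G s K}.ncard : ℕ) : ℝ) := by
        rw [hc]
        norm_cast
        refine card_le_card fun G hG => ?_
        have hG1 := mem_filter.1 hG
        have hG2 := mem_filter.1 hG1.1
        have hG3 := mem_filter.1 hG2.1
        rw [mem_filter]
        exact ⟨mem_univ _, fun v => congrFun hG1.2 v, hG3.2⟩
      have h4 : (({G : SimpleGraph (Fin n) | ∀ v, (G.neighborSet v).ncard = ds G0 v}.ncard : ℕ) : ℝ) ≤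
          (((GD n Δ).filter (fun G => ds G = ds G0)).card : ℝ) := by
        rw [hc]
        norm_cast
        refine card_le_card fun G hG => ?_
        have hG1 := (mem_filter.1 hG).2
        rw [mem_filter, GD, mem_filter]
        exact ⟨⟨mem_univ _, fun v => by rw [hG1 v]; exact hdΔ v⟩, funext hG1⟩
      have h5 : (n : ℝ) ≤ 4 * ((∑ v, ds G0 v : ℕ) : ℝ) := by exact_mod_cast hM
      have h6 : (n : ℝ) ^ K ≤ 4 ^ K * ((∑ v, ds G0 v : ℕ) : ℝ) ^ K := by
        rw [← mul_pow]
        exact pow_le_pow_left₀ (by positivity) h5 K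
      calc (n : ℝ) ^ K * ((bigbad.filter (fun G => ds G = ds G0)).card : ℝ)
          ≤ (4 ^ K * ((∑ v, ds G0 v : ℕ) : ℝ) ^ K) *
            (({G : SimpleGraph (Fin n) | (∀ v, (G.neighborSet v).ncard = ds G0 v) ∧
            denseK G s K}.ncard : ℕ) : ℝ) :=
            mul_le_mul h6 h3 (by positivity) (by positivity)
        _ = 4 ^ K * (((∑ v, ds G0 v : ℕ) : ℝ) ^ K *
            (({G : SimpleGraph (Fin n) | (∀ v, (G.neighborSet v).ncard = ds G0 v) ∧
            denseK G s K}.ncard : ℕ) : ℝ)) := by ring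
        _ ≤ 4 ^ K * (B * (({G : SimpleGraph (Fin n) |
            ∀ v, (G.neighborSet v).ncard = ds G0 v}.ncard : ℕ) : ℝ)) :=
            mul_le_mul_of_nonneg_left h1 (by positivity)
        _ ≤ 4 ^ K * (B * (((GD n Δ).filter (fun G => ds G = ds G0)).card : ℝ)) :=
            mul_le_mul_of_nonneg_left (mul_le_mul_of_nonneg_left h4 hB.le) (by positivity)
        _ = _ := by ring
  have hfin : (bad.card : ℝ) ≤ (small.card : ℝ) + (bigbad.card : ℝ) := by exact_mod_cast hsplit
  have hn0 : (0 : ℝ) ≤ (n : ℝ) ^ K := by positivity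
  calc (n : ℝ) ^ K * (bad.card : ℝ) ≤ (n : ℝ) ^ K * ((small.card : ℝ) + (bigbad.card : ℝ)) :=
        mul_le_mul_of_nonneg_left hfin hn0
    _ = (n : ℝ) ^ K * (small.card : ℝ) + (n : ℝ) ^ K * (bigbad.card : ℝ) := by ring
    _ ≤ ((8 * Δ : ℝ) ^ K + (8 * K + 4 : ℝ) ^ K) * ((GD n Δ).card : ℝ) +
        4 ^ K * B * ((GD n Δ).card : ℝ) := add_le_add hsm hbig
    _ = _ := by ring

end Pool.Agent.N319.LQ
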