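import Pool.Agent.Y573.GL.Lift
import Pool.Agent.N319.LQ.Stm

set_option autoImplicit false

/-!
# Project LQ (helper319), MP_0a041d_co: statement of the leaf LIFT
-/

namespace Pool.Agent.N319.LQ

open SimpleGraph

/-- Leaf LIFT: in all but `O(1/N)` of the lifts of a fixed finite multigraph, no set of at most `m`
vertices spans more edges than it has vertices. -/
def LiftStm : Prop :=
  ∀ (Bs I : Type) [Fintype Bs] [DecidableEq Bs] [Fintype I] (s t : I → Bs) (m : ℕ),
    ∃ C : ℕ, ∀ N : ℕ,
      N * ({π : I → Equiv.Perm (Fin N) | ¬ Sparse (Pool.Agent.Y573.GL.lift s t π) m}).ncard ≤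
        C * N.factorial ^ Fintype.card I

end Pool.Agent.N319.LQ
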