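import Pool.Agent.N319.LQ.Main
import Pool.Agent.N319.LQ.Rand

set_option autoImplicit false

/-!
# Project LQ (helper319), MP_0a041d_co: the bound for graphs of maximum degree at most `Δ`
-/

namespace Pool.Agent.N319.LQ

open SimpleGraph H931R3.LA

theorem sparse_mono {V : Type} {G : SimpleGraph V} {m m' : ℕ} (h : m' ≤ m)
    (hG : Sparse G m) : Sparse G m' :=
  fun S E hS hE => hG S E (hS.trans h) hE

theorem all_of_sparse {V : Type} [Finite V] (G : SimpleGraph V) (Δ : ℕ)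
    (hdeg : ∀ v, (G.neighborSet v).ncard ≤ Δ) (hsp : Sparse G ((Δ + 1) ^ 7)) :
    la G ≤ (Δ + 2) / 2 ∧
      (0 < Δ → Nonempty V → (∀ v, (G.neighborSet v).ncard = Δ) → la G = (Δ + 2) / 2) := by
  have h := cov_sparse G (Δ / 2) (fun v => by have := hdeg v; omega)
    (sparse_mono (Nat.pow_le_pow_left (by omega) 7) hsp)
  have h1 : Δ / 2 + 1 = (Δ + 2) / 2 := by omega
  rw [h1] at h
  exact ⟨la_le h, fun hΔ hV hreg => Pool.Agent.W111.LAR.la_eq_of_cov hΔ hreg h⟩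

theorem nat_of_real {B : ℝ} {a b c : ℕ} (h : (a : ℝ) ^ 1 * (b : ℝ) ≤ B * (c : ℝ)) :
    a * b ≤ ⌈B⌉₊ * c := by
  rw [pow_one] at h
  have h1 : (a : ℝ) * (b : ℝ) ≤ ((⌈B⌉₊ : ℕ) : ℝ) * (c : ℝ) :=
    h.trans (mul_le_mul_of_nonneg_right (Nat.le_ceil B) (by positivity))
  exact_mod_cast h1

end Pool.Agent.N319.LQ
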